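import Mathlib

/-!
The derivative of a determinant of polynomials at a point where the matrix is invertible.
-/

namespace Pool.Agent.Work.Nonic

open MvPolynomial Matrix TrivSqZeroExt

variable {R τ m : Type*} [CommRing R] [Fintype m] [DecidableEq m]

/-- first order expansion at `a` in the direction `l` -/
noncomputable def dual [DecidableEq τ] (a : τ → R) (l : τ) : MvPolynomial τ R →ₐ[R] DualNumber R :=
  aeval fun j => inl (a j) + if j = l then DualNumber.eps else 0

theorem dual_apply [DecidableEq τ] (a : τ → R) (l : τ) (f : MvPolynomial τ R) :
    dual a l f = inl (eval a f) + inr (eval a (pderiv l f)) := by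
  induction f using MvPolynomial.induction_on with
  | C r =>
    rw [dual, aeval_C, pderiv_C, eval_C, map_zero, inr_zero, add_zero]
    rfl
  | add p q hp hq =>
    rw [map_add, hp, hq, map_add, map_add, map_add, inl_add, inr_add]
    abel
  | mul_X p n hp =>
    rw [map_mul, hp, Derivation.leibniz, pderiv_X, map_mul, eval_X, smul_eq_mul, smul_eq_mul,
      map_add, map_mul, map_mul, eval_X]
    have h1 : dual a l (X n) = inl (a n) + if n = l then DualNumber.eps else 0 := by
      rw [dual, aeval_X]
    rw [h1]
    by_cases h : n = l
    · subst h
      rw [if_pos rfl, Pi.single_eq_same, map_one]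
      ext
      · simp
      · simp
        ring
    · rw [if_neg h, Pi.single_eq_of_ne (Ne.symm (fun h' => h h'.symm)), map_zero]
      ext
      · simp
      · simp
        ring

/-- the derivative of a determinant -/
theorem eval_pderiv_det (M : Matrix m m (MvPolynomial τ R)) (a : τ → R) (l : τ)
    (I : Matrix m m R) (hI : M.map (eval a) * I = 1) :
    eval a (pderiv l M.det) = (M.map (eval a)).det *
      trace (I * M.map fun f => eval a (pderiv l f)) := by
  classical
  set A := M.map (eval a) with hA
  set N : Matrix m m R := M.map fun f => eval a (pderiv l f) with hN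
  have h1 : M.map (dual a l) = A.map (inlHom R R) *
      (1 + (DualNumber.eps : DualNumber R) • (I * N).map (inlHom R R)) := by
    have h2 : A.map (inlHom R R) * (I * N).map (inlHom R R) = N.map (inlHom R R) := by
      rw [← Matrix.map_mul, ← Matrix.mul_assoc, hI, Matrix.one_mul]
    rw [Matrix.mul_add, Matrix.mul_one, Matrix.mul_smul, h2]
    ext i j
    · rw [Matrix.map_apply, dual_apply]
      simp [hA, hN]
    · rw [Matrix.map_apply, dual_apply]
      simp [hA, hN]
  have h3 : dual a l M.det = (M.map (dual a l)).det := by
    rw [AlgHom.map_det]
    rfl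
  have h4 : (A.map (inlHom R R)).det = inlHom R R A.det := by
    rw [RingHom.map_det]
    rfl
  rw [dual_apply, h1, det_mul, h4, det_one_add_smul] at h3
  have h5 : (trace ((I * N).map (inlHom R R)) : DualNumber R) = inlHom R R (trace (I * N)) := by
    simp only [trace, diag_apply, map_apply, map_sum]
  rw [h5] at h3
  have h6 := congrArg snd h3
  simpa [pow_two, DualNumber.eps_mul_eps] using h6

end Pool.Agent.Work.Nonic
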