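import Mathlib

/-!
The image of a dominant morphism: points of the base outside a proper closed subset lift to points
over an algebraically closed field.
-/

namespace Pool.Agent.Work.Nonic

open PrimeSpectrum TensorProduct

/-- The image of the spectrum contains a non empty basic open subset. -/
theorem exists_basic (R S : Type*) [CommRing R] [IsDomain R] [CommRing S] [IsDomain S]
    [Algebra R S] [Algebra.FinitePresentation R S]
    (hinj : Function.Injective (algebraMap R S)) :
    ∃ r : R, r ≠ 0 ∧ ∀ p : PrimeSpectrum R, r ∉ p.asIdeal →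
      p ∈ Set.range (comap (algebraMap R S)) := by
  obtain ⟨D, hD⟩ := exists_constructibleSetData_iff.mpr
    (isConstructible_range_comap (RingHom.finitePresentation_algebraMap.mpr
      (inferInstance : Algebra.FinitePresentation R S)))
  have hbot : (⟨⊥, Ideal.isPrime_bot⟩ : PrimeSpectrum R) ∈ D.toSet := by
    rw [hD]
    refine ⟨⟨⊥, Ideal.isPrime_bot⟩, ?_⟩
    apply PrimeSpectrum.ext
    show Ideal.comap (algebraMap R S) ⊥ = ⊥
    rw [← RingHom.ker_eq_comap_bot, (RingHom.injective_iff_ker_eq_bot _).mp hinj]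
  unfold ConstructibleSetData.toSet at hbot
  simp only [Set.mem_iUnion] at hbot
  obtain ⟨c, hc, h1, h2⟩ := hbot
  refine ⟨c.f, ?_, ?_⟩
  · intro h0
    apply h2
    intro x hx
    rw [Set.mem_singleton_iff.mp hx, h0]
    exact Ideal.zero_mem _
  · intro p hp
    rw [← hD]
    unfold ConstructibleSetData.toSet
    simp only [Set.mem_iUnion]
    refine ⟨c, hc, ?_, ?_⟩
    · intro x hx
      have h3 : x ∈ (⊥ : Ideal R) := h1 hx
      rw [Ideal.mem_bot.mp h3]
      exact Ideal.zero_mem _
    · intro h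
      exact hp (h rfl)

/-- A non zero algebra of finite type over an algebraically closed field has a point. -/
theorem exists_point (Ω A : Type*) [Field Ω] [IsAlgClosed Ω] [CommRing A] [Nontrivial A]
    [Algebra Ω A] [Algebra.FiniteType Ω A] : Nonempty (A →ₐ[Ω] Ω) := by
  obtain ⟨m, hm⟩ := Ideal.exists_maximal A
  let _ : Field (A ⧸ m) := Ideal.Quotient.field m
  have : Algebra.FiniteType Ω (A ⧸ m) :=
    Algebra.FiniteType.of_surjective (Ideal.Quotient.mkₐ Ω m) (Ideal.Quotient.mkₐ_surjective Ω m)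
  have hfin : Module.Finite Ω (A ⧸ m) := finite_of_finite_type_of_isJacobsonRing Ω (A ⧸ m)
  have hint : Algebra.IsIntegral Ω (A ⧸ m) := inferInstance
  have hbij := IsAlgClosed.algebraMap_bijective_of_isIntegral (k := Ω) (K := A ⧸ m)
  let e : Ω ≃ₐ[Ω] (A ⧸ m) := AlgEquiv.ofBijective (Algebra.ofId Ω (A ⧸ m)) hbij
  exact ⟨(e.symm : (A ⧸ m) →ₐ[Ω] Ω).comp (Ideal.Quotient.mkₐ Ω m)⟩

/-- Points of the base in the image lift to points over an algebraically closed field. -/
theorem exists_lift (R S Ω : Type*) [CommRing R] [CommRing S] [Field Ω] [IsAlgClosed Ω]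
    [Algebra R S] [Algebra.FiniteType R S] [Algebra R Ω]
    (h : (⟨RingHom.ker (algebraMap R Ω), RingHom.ker_isPrime _⟩ : PrimeSpectrum R) ∈
      Set.range (comap (algebraMap R S))) : Nonempty (S →ₐ[R] Ω) := by
  set p : PrimeSpectrum R := ⟨RingHom.ker (algebraMap R Ω), RingHom.ker_isPrime _⟩ with hp
  have hnt := (PrimeSpectrum.nontrivial_iff_mem_rangeComap (S := S) p).mpr h
  have hprime : p.asIdeal.IsPrime := p.isPrime
  let κ := p.asIdeal.ResidueField
  let g : κ →ₐ[R] Ω := Ideal.ResidueField.liftₐ p.asIdeal (Algebra.ofId R Ω) (by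
    intro x hx
    exact hx) (by
    intro x hx
    rw [Submonoid.mem_comap]
    refine isUnit_iff_ne_zero.mpr ?_ 
    intro h0
    exact hx h0)
  let _ : Algebra κ Ω := g.toRingHom.toAlgebra
  have : IsScalarTower R κ Ω := IsScalarTower.of_algebraMap_eq fun x => (g.commutes x).symm
  have hnt2 : Nontrivial (Ω ⊗[κ] (κ ⊗[R] S)) := inferInstance
  have hnt3 : Nontrivial (Ω ⊗[R] S) :=
    (Algebra.TensorProduct.cancelBaseChange R κ Ω Ω S).symm.toEquiv.nontrivial
  obtain ⟨f⟩ := exists_point Ω (Ω ⊗[R] S)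
  exact ⟨(f.restrictScalars R).comp Algebra.TensorProduct.includeRight⟩

end Pool.Agent.Work.Nonic
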