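import Mathlib
import Pool.Agent.Work.MP_b62148_ag.Nonic.Image

/-!
Polynomials with a non singular Jacobian matrix at one point define a dominant map.
-/

namespace Pool.Agent.Work.Nonic

open MvPolynomial

section jac

variable {τ : Type*} {m : ℕ}

/-- the chain rule -/
theorem pderiv_aeval (F : Fin m → MvPolynomial τ ℚ) (t : τ) (H : MvPolynomial (Fin m) ℚ) :
    pderiv t (aeval F H) = ∑ i, aeval F (pderiv i H) * pderiv t (F i) := by
  classical
  induction H using MvPolynomial.induction_on with
  | C a => simp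
  | add p q hp hq => simp only [map_add, hp, hq, add_mul, Finset.sum_add_distrib]
  | mul_X p n hp =>
    simp only [map_mul, aeval_X, Derivation.leibniz, hp, smul_eq_mul, map_add, pderiv_X]
    simp only [add_mul, Finset.sum_add_distrib]
    have h1 : ∑ i, aeval F p * aeval F (Pi.single (M := fun _ => MvPolynomial (Fin m) ℚ) i 1 n) *
        pderiv t (F i) = aeval F p * pderiv t (F n) := by
      rw [Finset.sum_eq_single n]
      · simp
      · intro b _ hb
        rw [Pi.single_eq_of_ne (Ne.symm hb)]
        simp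
      · intro h
        exact absurd (Finset.mem_univ _) h
    rw [h1, Finset.mul_sum]
    congr 1
    refine Finset.sum_congr rfl fun i _ => ?_
    ring

/-- a polynomial all of whose derivatives vanish is constant -/
theorem eq_C_of_pderiv {σ : Type*} (H : MvPolynomial σ ℚ) (h : ∀ i, pderiv i H = 0) :
    H = C (coeff 0 H) := by
  classical
  ext n
  rw [coeff_C]
  split_ifs with hn
  · rw [← hn]
  · obtain ⟨i, hi⟩ : ∃ i, n i ≠ 0 := by
      by_contra hcon
      push Not at hcon
      exact hn (Finsupp.ext fun i => (hcon i).symm)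
    have h1 := congrArg (coeff (n - Finsupp.single i 1)) (h i)
    rw [coeff_zero, coeff_pderiv] at h1
    have h2 : n - Finsupp.single i 1 + Finsupp.single i 1 = n := by
      ext j
      by_cases hj : j = i
      · subst hj
        simp
        omega
      · simp [Ne.symm hj]
    rw [h2] at h1
    refine (mul_eq_zero.mp h1).resolve_right ?_
    positivity

theorem aeval_eq_zero_of_jac (F : Fin m → MvPolynomial τ ℚ) (j : Fin m → τ)
    (h : (Matrix.of fun i l => pderiv (j l) (F i)).det ≠ 0) :
    ∀ (n : ℕ) (H : MvPolynomial (Fin m) ℚ), H.totalDegree ≤ n → aeval F H = 0 → H = 0 := by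
  intro n
  induction n with
  | zero =>
    intro H hH h0
    have h1 := totalDegree_eq_zero_iff_eq_C.mp (Nat.le_zero.mp hH)
    rw [h1, aeval_C, MvPolynomial.algebraMap_eq, C_eq_zero] at h0
    rw [h1, h0, C_0]
  | succ n ih =>
    intro H hH h0
    have h1 : ∀ i, pderiv i H = 0 := by
      have h2 : Matrix.vecMul (fun i => aeval F (pderiv i H))
          (Matrix.of fun i l => pderiv (j l) (F i)) = 0 := by
        funext l
        have := pderiv_aeval F (j l) H
        rw [h0, map_zero] at this
        exact this.symm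
      have h3 := Matrix.eq_zero_of_vecMul_eq_zero h h2
      intro i
      refine ih _ ?_ (congrFun h3 i)
      refine Finset.sup_le fun s hs => ?_
      rw [mem_support_iff, coeff_pderiv] at hs
      have h4 := le_totalDegree (mem_support_iff.mpr (left_ne_zero_of_mul hs))
      rw [Finsupp.sum_add_index' (fun _ => rfl) (fun _ _ _ => rfl),
        Finsupp.sum_single_index rfl] at h4
      omega
    have h2 := eq_C_of_pderiv H h1
    rw [h2, aeval_C, MvPolynomial.algebraMap_eq, C_eq_zero] at h0
    rw [h2, h0, C_0]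

/-- the Jacobian criterion -/
theorem algebraicIndependent_of_jac (F : Fin m → MvPolynomial τ ℚ) (j : Fin m → τ) (a : τ → ℚ)
    (h : (Matrix.of fun i l => eval a (pderiv (j l) (F i))).det ≠ 0) :
    AlgebraicIndependent ℚ F := by
  rw [algebraicIndependent_iff]
  intro H hH
  refine aeval_eq_zero_of_jac F j ?_ _ H le_rfl hH
  intro h0
  apply h
  have h1 := congrArg (eval a) h0
  rw [RingHom.map_det, map_zero] at h1
  exact h1

end jac

section dom

variable {τ : Type*} [Finite τ] {m : ℕ}

/-- **Dominance.** -/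
theorem exists_dominant (F : Fin m → MvPolynomial τ ℚ) (hF : AlgebraicIndependent ℚ F)
    (Φ : MvPolynomial τ ℚ) (hΦ : Φ ≠ 0) : ∃ Ψ : MvPolynomial (Fin m) ℚ, Ψ ≠ 0 ∧
      ∀ (Ω : Type*) [Field Ω] [IsAlgClosed Ω] [CharZero Ω] (d : Fin m → Ω), aeval d Ψ ≠ 0 →
        ∃ t : τ → Ω, aeval t Φ ≠ 0 ∧ ∀ i, aeval t (F i) = d i := by
  let R := MvPolynomial (Fin m) ℚ
  let P := MvPolynomial τ ℚ
  let S := Localization.Away Φ
  let f : R →ₐ[ℚ] P := aeval F
  let g : P →ₐ[ℚ] S := Algebra.algHom ℚ P S
  have hf : Function.Injective f := hF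
  have hg : Function.Injective g :=
    IsLocalization.injective S (powers_le_nonZeroDivisors_of_noZeroDivisors hΦ)
  have hdomS : IsDomain S := IsLocalization.isDomain_localization
    (powers_le_nonZeroDivisors_of_noZeroDivisors hΦ)
  let _ : Algebra R S := (g.comp f).toRingHom.toAlgebra
  have hST : IsScalarTower ℚ R S := IsScalarTower.of_algebraMap_eq fun x => ((g.comp f).commutes x).symm
  have hft0 : Algebra.FiniteType ℚ S := by
    have h1 : Algebra.FiniteType P S := IsLocalization.finiteType_of_monoid_fg (Submonoid.powers Φ) S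
    exact Algebra.FiniteType.trans (inferInstance : Algebra.FiniteType ℚ P) h1
  have hft : Algebra.FiniteType R S := Algebra.FiniteType.of_restrictScalars_finiteType ℚ R S
  have hfp : Algebra.FinitePresentation R S := Algebra.FinitePresentation.of_finiteType.mp hft
  obtain ⟨r, hr0, hr⟩ := exists_basic R S (hg.comp hf)
  refine ⟨r, hr0, fun Ω _ _ _ d hd => ?_⟩
  let _ : Algebra R Ω := (aeval d : R →ₐ[ℚ] Ω).toRingHom.toAlgebra
  obtain ⟨ψ⟩ := exists_lift R S Ω (hr _ hd)
  let ψ' : P →+* Ω := ψ.toRingHom.comp g.toRingHom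
  have hψ : ∀ p : P, ψ' p = aeval (fun i => ψ' (X i)) p := by
    intro p
    have h1 : ψ' = ((aeval (fun i => ψ' (X i)) : P →ₐ[ℚ] Ω) : P →+* Ω) := by
      apply MvPolynomial.ringHom_ext
      · intro c
        exact RingHom.congr_fun (Subsingleton.elim (ψ'.comp C)
          (((aeval (fun i => ψ' (X i)) : P →ₐ[ℚ] Ω) : P →+* Ω).comp C)) c
      · intro i
        simp
    exact RingHom.congr_fun h1 p
  refine ⟨fun i => ψ' (X i), ?_, fun i => ?_⟩
  · rw [← hψ]
    have h1 : IsUnit (g Φ) := IsLocalization.Away.algebraMap_isUnit Φ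
    exact (h1.map ψ.toRingHom).ne_zero
  · rw [← hψ]
    have h1 : ψ (algebraMap R S (X i)) = algebraMap R Ω (X i) := ψ.commutes _
    have h2 : algebraMap R S (X i) = g (F i) := by
      show g (f (X i)) = _
      congr 1
      exact aeval_X _ _
    have h3 : algebraMap R Ω (X i) = d i := aeval_X _ _
    rw [h2, h3] at h1
    exact h1

end dom

end Pool.Agent.Work.Nonic
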