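import Mathlib
import Pool.Agent.Work.MP_b62148_ag.D9.DiscGen
import Pool.Agent.Work.MP_b62148_ag.Nonic.EvenData
import Pool.Agent.Work.MP_b62148_ag.Nonic.DetDer
import Pool.Agent.Work.MP_b62148_ag.Nonic.Dom

/-!
The values of the discriminant form at the 55 grid points are algebraically independent
functions of the coefficients of the conic bundle (even class).
-/

namespace Pool.Agent.Work.Nonic.EJ

open MvPolynomial Matrix D9.OF D9.DS D9.DW D9.NP Cert EC

/-- the index set of the bordered matrix -/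
abbrev Idx := (Fin 3 × Fin 3) ⊕ (Fin 3 ⊕ Fin 3)

section generic

variable {R S : Type*} [CommRing R] [CommRing S]

/-- the generic matrices -/
noncomputable def GB (R : Type*) [CommRing R] : Fin 3 → Matrix (Fin 3) (Fin 3) (MvPolynomial Ix R) :=
  fun i => Matrix.of fun r c => X (Sum.inl (i, r, c))

/-- the generic quadratic forms -/
noncomputable def GN (R : Type*) [CommRing R] :
    Fin 3 → Fin 3 × Fin 3 → Fin 3 × Fin 3 → MvPolynomial Ix R := fun j s t => X (Sum.inr (j, s, t))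

/-- the generic bordered matrix at `x` -/
noncomputable def gM (x : Fin 3 → R) : Matrix Idx Idx (MvPolynomial Ix R) :=
  bord (GB R) (GN R) fun i => C (x i)

/-- the value at `x` of the discriminant form of the generic parameters -/
noncomputable def FF (x : Fin 3 → R) : MvPolynomial Ix R := (gM x).det

theorem hom_gM (f : MvPolynomial Ix R →+* S) (φ : R →+* S) (hC : ∀ a, f (C a) = φ a)
    (B : Fin 3 → Matrix (Fin 3) (Fin 3) S) (n : Fin 3 → Fin 3 × Fin 3 → Fin 3 × Fin 3 → S)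
    (hX : ∀ v, f (X v) = prm B n v) (x : Fin 3 → R) :
    (gM x).map f = bord B n fun i => φ (x i) := by
  unfold gM
  rw [bord_map]
  have h1 : D9.mB f (GB R) = B := by
    funext i
    ext r c
    exact hX (Sum.inl (i, r, c))
  have h2 : D9.mN f (GN R) = n := by
    funext j s t
    exact hX (Sum.inr (j, s, t))
  have h3 : (f ∘ fun i => C (x i)) = fun i => φ (x i) := by
    funext i
    exact hC (x i)
  rw [h1, h2, h3]

theorem eval_gM (B : Fin 3 → Matrix (Fin 3) (Fin 3) R)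
    (n : Fin 3 → Fin 3 × Fin 3 → Fin 3 × Fin 3 → R) (x : Fin 3 → R) :
    (gM x).map (eval (prm B n)) = bord B n x :=
  hom_gM (eval (prm B n)) (RingHom.id R) (fun a => eval_C a) B n (fun v => eval_X v) x

theorem map_FF (φ : R →+* S) (x : Fin 3 → R) :
    map φ (FF x) = FF fun i => φ (x i) := by
  unfold FF
  rw [RingHom.map_det, RingHom.mapMatrix_apply,
    hom_gM (map φ : MvPolynomial Ix R →+* MvPolynomial Ix S) ((C : S →+* MvPolynomial Ix S).comp φ)
      (fun a => by simp) (GB S) (GN S)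
      (fun v => by rw [map_X]; rcases v with v | v <;> rfl) x]
  rfl

theorem aeval_FF {F : Type*} [Field F] [Algebra R F] (B : Fin 3 → Matrix (Fin 3) (Fin 3) F)
    (n : Fin 3 → Fin 3 × Fin 3 → Fin 3 × Fin 3 → F) (x : Fin 3 → R) :
    aeval (prm B n) (FF x) = eval (fun i => algebraMap R F (x i)) (disc B n) := by
  unfold FF
  rw [← AlgHom.coe_toRingHom, RingHom.map_det, RingHom.mapMatrix_apply,
    hom_gM ((aeval (prm B n) : MvPolynomial Ix R →ₐ[R] F) : MvPolynomial Ix R →+* F)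
      (algebraMap R F)
      (fun a => by simp) B n (fun v => by simp) x, eval_disc]

/-- row and column of a variable in the bordered matrix -/
def rc : Ix → Idx × Idx
  | Sum.inl (i, r, c) => (Sum.inl (c, r), Sum.inr (Sum.inr i))
  | Sum.inr (_, s, t) => (Sum.inl s, Sum.inl t)

/-- factor of a variable in the bordered matrix -/
def yc (x : Fin 3 → R) : Ix → R
  | Sum.inl _ => 1
  | Sum.inr (j, _, _) => x j

theorem eval_pderiv_X (a : Ix → R) (v w : Ix) :
    eval a (pderiv v (X w : MvPolynomial Ix R)) = if w = v then 1 else 0 := by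
  classical
  rw [pderiv_X]
  by_cases h : w = v
  · subst h
    rw [if_pos rfl, Pi.single_eq_same, map_one]
  · rw [if_neg h, Pi.single_eq_of_ne h, map_zero]

theorem pderiv_gM (x : Fin 3 → R) (a : Ix → R) (v : Ix) :
    (gM x).map (fun f => eval a (pderiv v f)) =
      yc x v • (Matrix.single (rc v).1 (rc v).2 1 + Matrix.single (rc v).2 (rc v).1 1) := by
  ext α β
  rw [Matrix.map_apply, Matrix.smul_apply, Matrix.add_apply, Matrix.single_apply,
    Matrix.single_apply, smul_eq_mul]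
  rcases α with α | i | i <;> rcases β with β | k | k
  · show eval a (pderiv v (∑ j, C (x j) * (X (Sum.inr (j, α, β)) + X (Sum.inr (j, β, α))))) = _
    rw [map_sum, map_sum]
    simp only [pderiv_C_mul, map_mul, eval_C, map_add, eval_pderiv_X]
    rcases v with ⟨i, r, c⟩ | ⟨j, s, t⟩
    · simp [rc, yc]
    · rw [Finset.sum_eq_single j]
      · simp only [rc, yc, Sum.inr.injEq, Sum.inl.injEq, Prod.mk.injEq, true_and]
        congr 2
        · simp only [eq_comm]
        · simp only [eq_comm, and_comm]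
      · intro b _ hb
        simp [hb]
      · simp
  · show eval a (pderiv v (if α.1 = k then C (x α.2) else 0)) = _
    have h1 : eval a (pderiv v (if α.1 = k then C (x α.2) else 0 : MvPolynomial Ix R)) = 0 := by
      split_ifs <;> simp
    rw [h1]
    rcases v with ⟨i, r, c⟩ | ⟨j, s, t⟩ <;> simp [rc]
  · show eval a (pderiv v (X (Sum.inl (k, α.2, α.1)))) = _
    rw [eval_pderiv_X]
    rcases v with ⟨i, r, c⟩ | ⟨j, s, t⟩
    · obtain ⟨α1, α2⟩ := α
      simp only [rc, yc, Sum.inl.injEq, Prod.mk.injEq, Sum.inr.injEq, reduceCtorEq, false_and,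
        if_false, add_zero, one_mul]
      congr 1
      simp only [eq_iff_iff]
      constructor
      · rintro ⟨h1, h2, h3⟩
        exact ⟨⟨h3.symm, h2.symm⟩, h1.symm⟩
      · rintro ⟨⟨h1, h2⟩, h3⟩
        exact ⟨h3.symm, h2.symm, h1.symm⟩
    · simp [rc]
  · show eval a (pderiv v (if β.1 = i then C (x β.2) else 0)) = _
    have h1 : eval a (pderiv v (if β.1 = i then C (x β.2) else 0 : MvPolynomial Ix R)) = 0 := by
      split_ifs <;> simp
    rw [h1]
    rcases v with ⟨i, r, c⟩ | ⟨j, s, t⟩ <;> simp [rc]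
  · show eval a (pderiv v 0) = _
    rw [map_zero, map_zero]
    rcases v with ⟨i, r, c⟩ | ⟨j, s, t⟩ <;> simp [rc]
  · show eval a (pderiv v 0) = _
    rw [map_zero, map_zero]
    rcases v with ⟨i, r, c⟩ | ⟨j, s, t⟩ <;> simp [rc]
  · show eval a (pderiv v (X (Sum.inl (i, β.2, β.1)))) = _
    rw [eval_pderiv_X]
    rcases v with ⟨i', r, c⟩ | ⟨j, s, t⟩
    · obtain ⟨β1, β2⟩ := β
      simp only [rc, yc, Sum.inl.injEq, Prod.mk.injEq, Sum.inr.injEq, reduceCtorEq, false_and,
        if_false, zero_add, one_mul]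
      congr 1
      simp only [eq_iff_iff]
      constructor
      · rintro ⟨h1, h2, h3⟩
        exact ⟨h1.symm, ⟨h3.symm, h2.symm⟩⟩
      · rintro ⟨h3, ⟨h1, h2⟩⟩
        exact ⟨h3.symm, h2.symm, h1.symm⟩
    · simp [rc]
  · show eval a (pderiv v 0) = _
    rw [map_zero, map_zero]
    rcases v with ⟨i, r, c⟩ | ⟨j, s, t⟩ <;> simp [rc]
  · show eval a (pderiv v 0) = _
    rw [map_zero, map_zero]
    rcases v with ⟨i, r, c⟩ | ⟨j, s, t⟩ <;> simp [rc]

theorem trace_single {m : Type*} [Fintype m] [DecidableEq m] (I : Matrix m m R) (s t : m) :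
    trace (I * Matrix.single s t 1) = I t s := by
  rw [trace, Finset.sum_eq_single t]
  · rw [diag_apply, Matrix.mul_apply, Finset.sum_eq_single s]
    · simp
    · intro b _ hb
      simp [hb.symm]
    · simp
  · intro b _ hb
    rw [diag_apply, Matrix.mul_apply]
    refine Finset.sum_eq_zero fun c _ => ?_
    simp [hb.symm]
  · simp

theorem eval_pderiv_FF (B : Fin 3 → Matrix (Fin 3) (Fin 3) R)
    (n : Fin 3 → Fin 3 × Fin 3 → Fin 3 × Fin 3 → R) (x : Fin 3 → R) (I : Matrix Idx Idx R)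
    (hI : bord B n x * I = 1) (v : Ix) :
    eval (prm B n) (pderiv v (FF x)) = (bord B n x).det *
      (yc x v * (I (rc v).2 (rc v).1 + I (rc v).1 (rc v).2)) := by
  unfold FF
  rw [eval_pderiv_det (gM x) (prm B n) v I (by rw [eval_gM]; exact hI), eval_gM, pderiv_gM,
    Matrix.mul_smul, trace_smul, Matrix.mul_add, trace_add, trace_single, trace_single, smul_eq_mul]

end generic

section cert

/-- numbering of the index set -/
def e15 : Idx ≃ Fin 15 :=
  ((finProdFinEquiv : Fin 3 × Fin 3 ≃ Fin (3 * 3)).sumCongr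
    (finSumFinEquiv : Fin 3 ⊕ Fin 3 ≃ Fin (3 + 3))).trans finSumFinEquiv

theorem bord_aff {R : Type*} [CommRing R] (B : Fin 3 → Matrix (Fin 3) (Fin 3) R)
    (n : Fin 3 → Fin 3 × Fin 3 → Fin 3 × Fin 3 → R) (x : Fin 3 → R) (α β : Idx) :
    bord B n x α β = (x 0 * bord 0 n (Pi.single 0 1) α β + x 1 * bord 0 n (Pi.single 1 1) α β) +
      (x 2 * bord 0 n (Pi.single 2 1) α β + bord B n 0 α β) := by
  have h : x = fun i => ((fun i => ((fun i => (0 : Fin 3 → R) i +
      x 0 * (Pi.single 0 1 : Fin 3 → R) i) : Fin 3 → R) i +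
      x 1 * (Pi.single 1 1 : Fin 3 → R) i) : Fin 3 → R) i +
      x 2 * (Pi.single 2 1 : Fin 3 → R) i := by
    funext i
    fin_cases i <;> simp
  conv_lhs => rw [h]
  rw [bord_add, bord_add, bord_add]
  ring

theorem ent0 : ∀ α β : Idx, bord 0 (vn (ZMod 23)) (Pi.single 0 1) α β =
    ((dig m0 (15 * (e15 α : ℕ) + (e15 β : ℕ)) : ℕ) : ZMod 23) := by
  decide +kernel

theorem ent1 : ∀ α β : Idx, bord 0 (vn (ZMod 23)) (Pi.single 1 1) α β =
    ((dig m1 (15 * (e15 α : ℕ) + (e15 β : ℕ)) : ℕ) : ZMod 23) := by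
  decide +kernel

theorem ent2 : ∀ α β : Idx, bord 0 (vn (ZMod 23)) (Pi.single 2 1) α β =
    ((dig m2 (15 * (e15 α : ℕ) + (e15 β : ℕ)) : ℕ) : ZMod 23) := by
  decide +kernel

theorem entc : ∀ α β : Idx, bord (wB' (ZMod 23)) (vn (ZMod 23)) 0 α β =
    ((dig mc (15 * (e15 α : ℕ) + (e15 β : ℕ)) : ℕ) : ZMod 23) := by
  decide +kernel

/-- the directions -/
def colL : List Ix :=
  [Sum.inr (0, (0, 0), (0, 0)), Sum.inr (0, (0, 0), (0, 1)), Sum.inr (0, (0, 0), (0, 2)),
   Sum.inr (0, (0, 0), (1, 1)), Sum.inr (0, (0, 0), (1, 2)), Sum.inr (0, (0, 0), (2, 2)),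
   Sum.inr (0, (0, 1), (0, 1)), Sum.inr (0, (0, 1), (0, 2)), Sum.inr (0, (0, 1), (1, 1)),
   Sum.inr (0, (0, 1), (1, 2)), Sum.inr (0, (0, 1), (2, 2)), Sum.inr (0, (0, 2), (0, 2)),
   Sum.inr (0, (0, 2), (1, 1)), Sum.inr (0, (0, 2), (1, 2)), Sum.inr (0, (0, 2), (2, 2)),
   Sum.inr (0, (1, 1), (1, 1)), Sum.inr (0, (1, 1), (1, 2)), Sum.inr (0, (1, 1), (2, 2)),
   Sum.inr (0, (1, 2), (1, 2)), Sum.inr (0, (1, 2), (2, 2)), Sum.inr (0, (2, 2), (2, 2)),
   Sum.inr (1, (0, 0), (0, 0)), Sum.inr (1, (0, 0), (0, 1)), Sum.inr (1, (0, 0), (0, 2)),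
   Sum.inr (1, (0, 0), (1, 1)), Sum.inr (1, (0, 0), (1, 2)), Sum.inr (1, (0, 0), (2, 2)),
   Sum.inr (1, (0, 1), (0, 1)), Sum.inr (1, (0, 1), (0, 2)), Sum.inr (1, (0, 1), (1, 1)),
   Sum.inr (1, (0, 1), (1, 2)), Sum.inr (1, (0, 1), (2, 2)), Sum.inr (1, (0, 2), (0, 2)),
   Sum.inr (1, (0, 2), (2, 2)), Sum.inr (1, (1, 1), (1, 1)), Sum.inr (1, (1, 1), (1, 2)),
   Sum.inr (1, (1, 1), (2, 2)), Sum.inr (1, (1, 2), (2, 2)), Sum.inr (1, (2, 2), (2, 2)),
   Sum.inr (2, (0, 0), (0, 0)), Sum.inr (2, (0, 0), (0, 1)), Sum.inr (2, (0, 0), (1, 1)),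
   Sum.inr (2, (0, 1), (0, 1)), Sum.inr (2, (0, 1), (1, 1)), Sum.inr (2, (1, 1), (1, 1)),
   Sum.inl (0, 0, 0), Sum.inl (0, 0, 1), Sum.inl (0, 0, 2),
   Sum.inl (0, 1, 1), Sum.inl (0, 1, 2), Sum.inl (0, 2, 2),
   Sum.inl (1, 1, 1), Sum.inl (1, 1, 2), Sum.inl (1, 2, 2),
   Sum.inl (2, 2, 2)]

/-- the directions -/
def col (l : Fin 55) : Ix := colL.getD l (Sum.inl (0, 0, 0))

/-- number of the factor -/
def code : Ix → ℕ
  | Sum.inl _ => 3
  | Sum.inr (j, _, _) => j

theorem col_chk : ∀ l : Fin 55, (e15 (rc (col l)).1 : ℕ) = dig cs l ∧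
    (e15 (rc (col l)).2 : ℕ) = dig ct l ∧ code (col l) = dig cy l := by
  decide +kernel

theorem grid_chk : ∀ i : Fin 55, grid i 0 = (gridL.getD i default).1 ∧
    grid i 1 = (gridL.getD i default).2.1 ∧ grid i 2 = (gridL.getD i default).2.2 := by
  decide +kernel

theorem yc_code {p : ℕ} (x : Fin 3 → ℕ) (v : Ix) :
    yc (fun t => (x t : ZMod p)) v = ((yv (x 0) (x 1) (x 2) (code v) : ℕ) : ZMod p) := by
  rcases v with ⟨i, r, c⟩ | ⟨j, s, t⟩
  · exact Nat.cast_one.symm
  · fin_cases j <;> rfl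

theorem point (i : Fin 55) : ∃ I : Matrix Idx Idx (ZMod 23),
    bord (wB' (ZMod 23)) (vn (ZMod 23)) (fun t => (grid i t : ZMod 23)) * I = 1 ∧
    ∀ l, yc (fun t => (grid i t : ZMod 23)) (col l) *
      (I (rc (col l)).2 (rc (col l)).1 + I (rc (col l)).1 (rc (col l)).2) =
        matZ 23 55 jj i l := by
  have h := allN_sound _ _ ptChk_all i i.2
  obtain ⟨g0, g1, g2⟩ := grid_chk i
  rw [← g0, ← g1, ← g2] at h
  set M := (data.getD (i : ℕ) default).1 with hM
  set I := (data.getD (i : ℕ) default).2 with hI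
  clear_value M I
  have h1 : mulChk 15 23 M I = true := by
    by_contra h0
    rw [Bool.not_eq_true] at h0
    unfold ptChk at h
    rw [h0] at h
    simp at h
  have h2 : entChk (grid i 0) (grid i 1) (grid i 2) M = true := by
    by_contra h0
    rw [Bool.not_eq_true] at h0
    unfold ptChk at h
    rw [h1, h0] at h
    simp at h
  have h3 : jacChk (grid i 0) (grid i 1) (grid i 2) I i = true := by
    unfold ptChk at h
    rw [h1, h2] at h
    simpa using h
  have h4 := mulChk_sound h1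
  have h5 : bord (wB' (ZMod 23)) (vn (ZMod 23)) (fun t => (grid i t : ZMod 23)) =
      (matZ 23 15 M).submatrix e15 e15 := by
    ext α β
    have h6 := cast_of_mod (allN_sound _ _ h2 (15 * (e15 α : ℕ) + (e15 β : ℕ)) (by
      have := (e15 α).2
      have := (e15 β).2
      omega))
    rw [bord_aff, ent0, ent1, ent2, entc]
    refine Eq.trans ?_ h6
    exact (by
      show _ = (((grid i 0 * dig m0 (15 * (e15 α : ℕ) + (e15 β : ℕ)) +
        grid i 1 * dig m1 (15 * (e15 α : ℕ) + (e15 β : ℕ))) +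
        (grid i 2 * dig m2 (15 * (e15 α : ℕ) + (e15 β : ℕ)) +
        dig mc (15 * (e15 α : ℕ) + (e15 β : ℕ))) : ℕ) : ZMod 23)
      push_cast
      ring)
  refine ⟨(matZ 23 15 I).submatrix e15 e15, ?_, fun l => ?_⟩
  · rw [h5, Matrix.submatrix_mul_equiv, h4, Matrix.submatrix_one_equiv]
  · have h6 := cast_of_mod (allN_sound _ _ h3 l l.2)
    obtain ⟨c1, c2, c3⟩ := col_chk l
    rw [← c1, ← c2, ← c3] at h6
    rw [yc_code]
    refine Eq.trans ?_ h6
    exact (by
      show _ = ((yv (grid i 0) (grid i 1) (grid i 2) (code (col l)) *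
        (dig I (15 * (e15 (rc (col l)).1 : ℕ) + (e15 (rc (col l)).2 : ℕ)) +
          dig I (15 * (e15 (rc (col l)).2 : ℕ) + (e15 (rc (col l)).1 : ℕ))) : ℕ) : ZMod 23)
      push_cast
      simp only [matZ, Matrix.submatrix_apply, Matrix.of_apply]
      ring)

/-- a grid point over a ring -/
def gpt (R : Type*) [CommRing R] (i : Fin 55) : Fin 3 → R := fun t => (grid i t : R)

/-- partial derivatives -/
noncomputable def pd (R : Type*) [CommRing R] (i l : Fin 55) : MvPolynomial Ix R :=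
  pderiv (col l) (FF (gpt R i))

/-- the Jacobian matrix of the values at the grid points -/
noncomputable def Jac (R : Type*) [CommRing R] : Matrix (Fin 55) (Fin 55) R :=
  Matrix.of fun i l => eval (prm (wB' R) (vn R)) (pd R i l)

theorem mB_wB' {R S : Type*} [CommRing R] [CommRing S] (φ : R →+* S) :
    D9.mB φ (wB' R) = wB' S := by
  funext i
  ext r c
  fin_cases i <;> fin_cases r <;> fin_cases c <;> simp [D9.mB, wB']

theorem mN_vn {R S : Type*} [CommRing R] [CommRing S] (φ : R →+* S) :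
    D9.mN φ (vn R) = vn S := by
  funext j s t
  simp [D9.mN, vn]

theorem map_Jac {R S : Type*} [CommRing R] [CommRing S] (φ : R →+* S) :
    (Jac R).map φ = Jac S := by
  ext i l
  have h1 : φ (eval (prm (wB' R) (vn R)) (pd R i l)) =
      eval (φ ∘ prm (wB' R) (vn R)) (map φ (pd R i l)) := by
    rw [eval_map]
    exact MvPolynomial.eval₂_comp_left φ (RingHom.id R) _ _
  have h2 : φ ∘ prm (wB' R) (vn R) = prm (wB' S) (vn S) := by
    rw [← mB_wB' φ, ← mN_vn φ]
    funext v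
    rcases v with v | v <;> rfl
  have h3 : (fun t => φ (gpt R i t)) = gpt S i := by
    funext t
    exact map_natCast φ _
  have h4 : map φ (pd R i l) = pd S i l := by
    unfold pd
    rw [← pderiv_map, map_FF, h3]
  rw [Matrix.map_apply]
  refine h1.trans ?_
  rw [h2, h4]
  rfl

theorem det_ne_zero_of_inv {F m : Type*} [Field F] [Fintype m] [DecidableEq m]
    (A B : Matrix m m F) (h : A * B = 1) : A.det ≠ 0 := Matrix.det_ne_zero_of_right_inverse h

theorem det_diagonal_mul_ne {F m : Type*} [Field F] [Fintype m] [DecidableEq m]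
    (A B : Matrix m m F) (d : m → F) (hd : ∀ i, d i ≠ 0) (hB : B.det ≠ 0)
    (h : ∀ i l, A i l = d i * B i l) : A.det ≠ 0 := by
  have h1 : A = Matrix.diagonal d * B := by
    ext i l
    rw [Matrix.diagonal_mul, h]
  rw [h1, det_mul, det_diagonal]
  exact mul_ne_zero (Finset.prod_ne_zero_iff.mpr fun i _ => hd i) hB

theorem det_Jac_p (p : ℕ) [Fact p.Prime] (J K : Matrix (Fin 55) (Fin 55) (ZMod p))
    (hJ : J * K = 1)
    (h : ∀ i : Fin 55, ∃ I : Matrix Idx Idx (ZMod p),
      bord (wB' (ZMod p)) (vn (ZMod p)) (gpt (ZMod p) i) * I = 1 ∧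
      ∀ l, yc (gpt (ZMod p) i) (col l) *
        (I (rc (col l)).2 (rc (col l)).1 + I (rc (col l)).1 (rc (col l)).2) = J i l) :
    (Jac (ZMod p)).det ≠ 0 := by
  choose I hI1 hI2 using h
  refine det_diagonal_mul_ne (Jac (ZMod p)) J (fun i : Fin 55 =>
      (bord (wB' (ZMod p)) (vn (ZMod p)) (gpt (ZMod p) i)).det)
    (fun i => det_ne_zero_of_inv _ _ (hI1 i)) (det_ne_zero_of_inv _ _ hJ) ?_
  intro i l
  refine (eval_pderiv_FF _ _ _ (I i) (hI1 i) _).trans ?_
  rw [hI2]

theorem det_Jac_23 : (Jac (ZMod 23)).det ≠ 0 := by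
  have : Fact (Nat.Prime 23) := ⟨by norm_num⟩
  exact det_Jac_p 23 (matZ 23 55 jj) (matZ 23 55 rr) (mulChk_sound inv_chk) point

theorem det_Jac_Q : (Jac ℚ).det ≠ 0 := by
  have h1 : (Jac ℤ).det ≠ 0 := by
    intro h0
    apply det_Jac_23
    rw [← map_Jac (Int.castRingHom (ZMod 23))]
    have h2 := congrArg (Int.castRingHom (ZMod 23)) h0
    rw [RingHom.map_det, map_zero] at h2
    exact h2
  rw [← map_Jac (Int.castRingHom ℚ)]
  have h3 := RingHom.map_det (Int.castRingHom ℚ) (Jac ℤ)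
  rw [RingHom.mapMatrix_apply] at h3
  rw [← h3]
  exact fun h0 => h1 (Int.cast_injective (α := ℚ) (h0.trans Int.cast_zero.symm))

theorem pd_eq (i l : Fin 55) : pderiv (col l) (FF (gpt ℚ i)) = pd ℚ i l := rfl

theorem Jac_eq (i l : Fin 55) : eval (prm (wB' ℚ) (vn ℚ)) (pd ℚ i l) = Jac ℚ i l := rfl

/-- the values of the discriminant form at the grid points are algebraically independent -/
theorem algebraicIndependent_FF : AlgebraicIndependent ℚ fun i : Fin 55 => FF (gpt ℚ i) := by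
  refine algebraicIndependent_of_jac _ col (prm (wB' ℚ) (vn ℚ)) ?_
  have h : (Matrix.of fun i l => eval (prm (wB' ℚ) (vn ℚ)) (pderiv (col l) (FF (gpt ℚ i)))) =
      Jac ℚ := by
    ext i l
    rw [Matrix.of_apply, pd_eq, Jac_eq]
  rw [h]
  exact det_Jac_Q

end cert

end Pool.Agent.Work.Nonic.EJ
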