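import Mathlib
import Pool.Agent.Work.MP_b62148_ag.Nonic.Dom

/-!
Ternary forms of degree `n` and their values at the points with natural coordinates of sum `n`.
-/

namespace Pool.Agent.Work.Nonic

open MvPolynomial

section lagrange

variable {K : Type*} [Field K]

/-- the form which vanishes at all points of the lattice simplex except `a` -/
noncomputable def lag (n : ℕ) (a : Fin 3 → ℕ) : MvPolynomial (Fin 3) K :=
  ∏ t, ∏ l ∈ Finset.range (a t), (C (n : K) * X t - C (l : K) * (X 0 + X 1 + X 2))

theorem lag_hom (n : ℕ) (a : Fin 3 → ℕ) :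
    (lag n a : MvPolynomial (Fin 3) K).IsHomogeneous (a 0 + a 1 + a 2) := by
  have h1 : ∀ (t : Fin 3) (l : ℕ),
      (C (n : K) * X t - C (l : K) * (X 0 + X 1 + X 2) : MvPolynomial (Fin 3) K).IsHomogeneous 1 := by
    intro t l
    have hX : ∀ j : Fin 3, (X j : MvPolynomial (Fin 3) K).IsHomogeneous 1 := fun j =>
      isHomogeneous_X K j
    have e1 := (isHomogeneous_C (Fin 3) (n : K)).mul (hX t)
    have e2 := (isHomogeneous_C (Fin 3) (l : K)).mul (((hX 0).add (hX 1)).add (hX 2))
    rw [zero_add] at e1 e2
    exact e1.sub e2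
  have h2 : ∀ t : Fin 3, (∏ l ∈ Finset.range (a t),
      (C (n : K) * X t - C (l : K) * (X 0 + X 1 + X 2)) :
        MvPolynomial (Fin 3) K).IsHomogeneous (a t) := by
    intro t
    have := IsHomogeneous.prod (Finset.range (a t))
      (fun l => (C (n : K) * X t - C (l : K) * (X 0 + X 1 + X 2) : MvPolynomial (Fin 3) K))
      (fun _ => 1) (fun l _ => h1 t l)
    simpa using this
  have := IsHomogeneous.prod Finset.univ (fun t : Fin 3 => (∏ l ∈ Finset.range (a t),
      (C (n : K) * X t - C (l : K) * (X 0 + X 1 + X 2)) : MvPolynomial (Fin 3) K)) a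
      (fun t _ => h2 t)
  rw [Fin.sum_univ_three] at this
  exact this

theorem eval_lag (n : ℕ) (a b : Fin 3 → ℕ) (hb : b 0 + b 1 + b 2 = n) :
    eval (fun j => (b j : K)) (lag n a) =
      ∏ t, ∏ l ∈ Finset.range (a t), ((n : K) * ((b t : K) - (l : K))) := by
  unfold lag
  rw [map_prod]
  refine Finset.prod_congr rfl fun t _ => ?_
  rw [map_prod]
  refine Finset.prod_congr rfl fun l _ => ?_
  simp only [map_sub, map_mul, map_add, eval_C, eval_X]
  have h : (b 0 : K) + (b 1 : K) + (b 2 : K) = n := by rw [← hb]; push_cast; ring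
  rw [h]
  ring

theorem eval_lag_ne [CharZero K] (n : ℕ) (hn : n ≠ 0) (a : Fin 3 → ℕ) (ha : a 0 + a 1 + a 2 = n) :
    eval (fun j => (a j : K)) (lag n a) ≠ 0 := by
  rw [eval_lag n a a ha]
  refine Finset.prod_ne_zero_iff.mpr fun t _ => Finset.prod_ne_zero_iff.mpr fun l hl => ?_
  refine mul_ne_zero (Nat.cast_ne_zero.mpr hn) ?_
  rw [Finset.mem_range] at hl
  intro h
  have h1 : (a t : K) = (l : K) := sub_eq_zero.mp h
  have h2 := Nat.cast_injective h1
  omega

theorem eval_lag_eq (n : ℕ) (a b : Fin 3 → ℕ) (ha : a 0 + a 1 + a 2 = n)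
    (hb : b 0 + b 1 + b 2 = n) (hab : a ≠ b) :
    eval (fun j => (b j : K)) (lag n a) = 0 := by
  rw [eval_lag n a b hb]
  obtain ⟨t, ht⟩ : ∃ t, b t < a t := by
    by_contra hcon
    push Not at hcon
    apply hab
    have h0 := hcon 0
    have h1 := hcon 1
    have h2 := hcon 2
    funext t
    fin_cases t
    · show a 0 = b 0
      omega
    · show a 1 = b 1
      omega
    · show a 2 = b 2
      omega
  refine Finset.prod_eq_zero (Finset.mem_univ t) ?_
  refine Finset.prod_eq_zero (Finset.mem_range.mpr ht) ?_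
  rw [sub_self, mul_zero]

end lagrange

section index

variable {ι : Type*} [Fintype ι] [DecidableEq ι] (n : ℕ) (P : ι → Fin 3 → ℕ)

/-- exponent vectors as finitely supported functions -/
noncomputable def ex (i : ι) : Fin 3 →₀ ℕ := Finsupp.equivFunOnFinite.symm (P i)

omit [Fintype ι] [DecidableEq ι] in
theorem ex_inj (hP : Function.Injective P) : Function.Injective (ex P) := fun _ _ h =>
  hP (Finsupp.equivFunOnFinite.symm.injective h)

/-- the form with coefficients `d` -/
noncomputable def frm {R : Type*} [CommSemiring R] (d : ι → R) : MvPolynomial (Fin 3) R :=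
  ∑ i, monomial (ex P i) (d i)

omit [DecidableEq ι] in
theorem coeff_frm {R : Type*} [CommSemiring R] (hP : Function.Injective P) (d : ι → R) (i : ι) :
    coeff (ex P i) (frm P d) = d i := by
  unfold frm
  rw [coeff_sum, Finset.sum_eq_single i]
  · rw [coeff_monomial, if_pos rfl]
  · intro j _ hj
    rw [coeff_monomial, if_neg (fun h => hj (ex_inj P hP h))]
  · intro h; exact absurd (Finset.mem_univ i) h

omit [DecidableEq ι] in
theorem frm_coeff {R : Type*} [CommSemiring R] (hP : Function.Injective P)
    (hsurj : ∀ a : Fin 3 → ℕ, a 0 + a 1 + a 2 = n → ∃ i, P i = a)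
    (D : MvPolynomial (Fin 3) R) (hD : D.IsHomogeneous n) :
    frm P (fun i => coeff (ex P i) D) = D := by
  ext m
  by_cases hm : m 0 + m 1 + m 2 = n
  · obtain ⟨i, hi⟩ := hsurj m hm
    have h1 : ex P i = m := by
      unfold ex
      rw [hi]
      exact Finsupp.equivFunOnFinite.symm_apply_apply m
    rw [← h1, coeff_frm P hP]
  · have h1 : coeff m D = 0 := by
      by_contra h
      have := hD h
      apply hm
      rw [Finsupp.weight_apply, Finsupp.sum_fintype] at this
      · simpa [Fin.sum_univ_three] using this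
      · intro i; simp
    have h2 : coeff m (frm P (fun i => coeff (ex P i) D)) = 0 := by
      unfold frm
      rw [coeff_sum]
      refine Finset.sum_eq_zero fun i _ => ?_
      rw [coeff_monomial]
      by_cases hi : ex P i = m
      · rw [if_pos hi]
        show coeff (ex P i) D = 0
        rw [hi, h1]
      · rw [if_neg hi]
    rw [h1, h2]

omit [DecidableEq ι] in
theorem eval_frm {R : Type*} [CommSemiring R] (d : ι → R) (x : Fin 3 → R) :
    eval x (frm P d) = ∑ i, d i * ∏ t, x t ^ P i t := by
  unfold frm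
  rw [map_sum]
  refine Finset.sum_congr rfl fun i _ => ?_
  rw [eval_monomial, Finsupp.prod_fintype]
  · rfl
  · intro t; exact pow_zero _

/-- the matrix of the values of the monomials at the points -/
def vand (R : Type*) [CommRing R] : Matrix ι ι R :=
  Matrix.of fun i j => ∏ t, (P i t : R) ^ P j t

theorem det_vand {K : Type*} [Field K] [CharZero K] (hn : n ≠ 0) (hP : Function.Injective P)
    (hsum : ∀ i, P i 0 + P i 1 + P i 2 = n)
    (hsurj : ∀ a : Fin 3 → ℕ, a 0 + a 1 + a 2 = n → ∃ i, P i = a) :
    (vand P K).det ≠ 0 := by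
  let Lc : Matrix ι ι K := Matrix.of fun j i => coeff (ex P j) (lag n (P i) : MvPolynomial _ K)
  have h1 : vand P K * Lc = Matrix.diagonal fun i =>
      eval (fun t => (P i t : K)) (lag n (P i) : MvPolynomial _ K) := by
    ext i j
    have h2 : (vand P K * Lc) i j = eval (fun t => (P i t : K)) (lag n (P j)) := by
      have hh : (lag n (P j) : MvPolynomial (Fin 3) K).IsHomogeneous n := by
        have := lag_hom (K := K) n (P j)
        rw [hsum j] at this
        exact this
      conv_rhs => rw [← frm_coeff n P hP hsurj (lag n (P j) : MvPolynomial (Fin 3) K) hh]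
      rw [eval_frm, Matrix.mul_apply]
      refine Finset.sum_congr rfl fun l _ => ?_
      show (∏ t, (P i t : K) ^ P l t) * coeff (ex P l) (lag n (P j)) = _
      rw [mul_comm]
    rw [h2]
    by_cases hij : i = j
    · subst hij
      rw [Matrix.diagonal_apply_eq]
    · rw [Matrix.diagonal_apply_ne _ hij]
      exact eval_lag_eq n (P j) (P i) (hsum j) (hsum i) (fun h => hij (hP h).symm)
  intro h0
  have h3 := congrArg Matrix.det h1
  rw [Matrix.det_mul, h0, zero_mul, Matrix.det_diagonal] at h3
  have h4 : ∏ i, eval (fun t => (P i t : K)) (lag n (P i) : MvPolynomial _ K) ≠ 0 :=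
    Finset.prod_ne_zero_iff.mpr fun i _ => eval_lag_ne n hn (P i) (hsum i)
  exact h4 h3.symm

/-- a form is determined by its values at the points -/
theorem form_ext {K : Type*} [Field K] [CharZero K] (hn : n ≠ 0) (hP : Function.Injective P)
    (hsum : ∀ i, P i 0 + P i 1 + P i 2 = n)
    (hsurj : ∀ a : Fin 3 → ℕ, a 0 + a 1 + a 2 = n → ∃ i, P i = a)
    (D D' : MvPolynomial (Fin 3) K) (hD : D.IsHomogeneous n) (hD' : D'.IsHomogeneous n)
    (h : ∀ i, eval (fun t => (P i t : K)) D = eval (fun t => (P i t : K)) D') : D = D' := by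
  have key : ∀ E : MvPolynomial (Fin 3) K, E.IsHomogeneous n →
      (fun i => eval (fun t => (P i t : K)) E) =
        (vand P K).mulVec (fun i => coeff (ex P i) E) := by
    intro E hE
    funext i
    conv_lhs => rw [← frm_coeff n P hP hsurj E hE]
    rw [eval_frm]
    simp only [Matrix.mulVec, dotProduct, vand, Matrix.of_apply]
    exact Finset.sum_congr rfl fun l _ => mul_comm _ _
  have h1 : (vand P K).mulVec (fun i => coeff (ex P i) D) =
      (vand P K).mulVec (fun i => coeff (ex P i) D') := by
    rw [← key D hD, ← key D' hD']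
    funext i
    exact h i
  have h2 : Function.Injective (vand P K).mulVec := by
    rw [Matrix.mulVec_injective_iff_isUnit]
    exact (Matrix.isUnit_iff_isUnit_det _).mpr
      (isUnit_iff_ne_zero.mpr (det_vand n P hn hP hsum hsurj))
  have h3 := h2 h1
  rw [← frm_coeff n P hP hsurj D hD, ← frm_coeff n P hP hsurj D' hD', h3]

end index

section linear

variable {ι : Type*} [Fintype ι] [DecidableEq ι] {K : Type*} [Field K]

/-- the linear change of variables with matrix `M` -/
noncomputable def lin (M : Matrix ι ι K) : MvPolynomial ι K →ₐ[K] MvPolynomial ι K :=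
  aeval fun i => ∑ j, C (M i j) * X j

theorem lin_lin (M N : Matrix ι ι K) (h : M * N = 1) (f : MvPolynomial ι K) :
    lin N (lin M f) = f := by
  have h1 : (lin N).comp (lin M) = AlgHom.id K (MvPolynomial ι K) := by
    refine MvPolynomial.algHom_ext fun i => ?_
    rw [AlgHom.comp_apply, AlgHom.id_apply]
    unfold lin
    rw [aeval_X, map_sum]
    simp only [map_mul, aeval_X, MvPolynomial.algHom_C, MvPolynomial.algebraMap_eq,
      Finset.mul_sum]
    rw [Finset.sum_comm]
    have h2 : ∀ k, ∑ j, C (M i j) * (C (N j k) * X k) = (C ((1 : Matrix ι ι K) i k) * X k :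
        MvPolynomial ι K) := by
      intro k
      rw [← h, Matrix.mul_apply, map_sum, Finset.sum_mul]
      refine Finset.sum_congr rfl fun j _ => ?_
      rw [map_mul, mul_assoc]
    simp only [h2]
    rw [Finset.sum_eq_single i]
    · rw [Matrix.one_apply_eq, C_1, one_mul]
    · intro k _ hk
      rw [Matrix.one_apply_ne (Ne.symm hk), C_0, zero_mul]
    · intro h; exact absurd (Finset.mem_univ i) h
  exact DFunLike.congr_fun h1 f

theorem lin_ne (M : Matrix ι ι K) (hM : M.det ≠ 0) (f : MvPolynomial ι K) (hf : f ≠ 0) :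
    lin M f ≠ 0 := by
  intro h
  apply hf
  rw [← lin_lin M M⁻¹ (Matrix.mul_nonsing_inv M (isUnit_iff_ne_zero.mpr hM)) f, h, map_zero]

omit [DecidableEq ι] in
theorem aeval_lin {A : Type*} [CommRing A] [Algebra K A] (M : Matrix ι ι K)
    (f : MvPolynomial ι K) (d : ι → A) :
    aeval d (lin M f) = aeval (fun i => ∑ j, algebraMap K A (M i j) * d j) f := by
  have h1 : (aeval d).comp (lin M) =
      (aeval (fun i => ∑ j, algebraMap K A (M i j) * d j) : MvPolynomial ι K →ₐ[K] A) := by
    refine MvPolynomial.algHom_ext fun i => ?_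
    rw [AlgHom.comp_apply]
    unfold lin
    rw [aeval_X, aeval_X, map_sum]
    refine Finset.sum_congr rfl fun j _ => ?_
    rw [map_mul, aeval_X, aeval_C]
  exact DFunLike.congr_fun h1 f

end linear

end Pool.Agent.Work.Nonic
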