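import Mathlib

/-!
The 55 grid points of the plane: the points `(a, b, c)` of natural numbers with `a + b + c = 9`.
-/

namespace Pool.Agent.Work.Nonic

/-- the grid points as a list -/
def gridL : List (ℕ × ℕ × ℕ) :=
  [(0, 0, 9), (0, 1, 8), (0, 2, 7), (0, 3, 6), (0, 4, 5), (0, 5, 4), (0, 6, 3), (0, 7, 2), (0, 8, 1), (0, 9, 0), (1, 0, 8),
   (1, 1, 7), (1, 2, 6), (1, 3, 5), (1, 4, 4), (1, 5, 3), (1, 6, 2), (1, 7, 1), (1, 8, 0), (2, 0, 7), (2, 1, 6), (2, 2, 5),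
   (2, 3, 4), (2, 4, 3), (2, 5, 2), (2, 6, 1), (2, 7, 0), (3, 0, 6), (3, 1, 5), (3, 2, 4), (3, 3, 3), (3, 4, 2), (3, 5, 1),
   (3, 6, 0), (4, 0, 5), (4, 1, 4), (4, 2, 3), (4, 3, 2), (4, 4, 1), (4, 5, 0), (5, 0, 4), (5, 1, 3), (5, 2, 2), (5, 3, 1),
   (5, 4, 0), (6, 0, 3), (6, 1, 2), (6, 2, 1), (6, 3, 0), (7, 0, 2), (7, 1, 1), (7, 2, 0), (8, 0, 1), (8, 1, 0), (9, 0, 0)]

theorem gridL_length : gridL.length = 55 := rfl

/-- the grid points -/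
def grid (i : Fin 55) : Fin 3 → ℕ :=
  ![(gridL.get (i.cast gridL_length.symm)).1, (gridL.get (i.cast gridL_length.symm)).2.1,
    (gridL.get (i.cast gridL_length.symm)).2.2]

theorem grid_sum : ∀ i : Fin 55, grid i 0 + grid i 1 + grid i 2 = 9 := by
  decide

theorem grid_inj : Function.Injective grid := by
  decide

end Pool.Agent.Work.Nonic
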