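import Mathlib
import Pool.Agent.Work.MP_b62148_ag.Nonic.Dom
import Pool.Agent.Work.MP_b62148_ag.Nonic.Eval
import Pool.Agent.Work.MP_b62148_ag.Nonic.Grid

/-!
Ternary forms of degree nine: the passage from the values at the grid to the coefficients.
-/

namespace Pool.Agent.Work.Nonic

open MvPolynomial

theorem grid_aux : ∀ x y : Fin 10, (x : ℕ) + (y : ℕ) ≤ 9 →
    ∃ i : Fin 55, grid i 0 = x ∧ grid i 1 = y := by
  decide

theorem grid_surj (a : Fin 3 → ℕ) (h : a 0 + a 1 + a 2 = 9) : ∃ i, grid i = a := by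
  obtain ⟨i, h0, h1⟩ := grid_aux ⟨a 0, by omega⟩ ⟨a 1, by omega⟩ (by simp only; omega)
  refine ⟨i, ?_⟩
  have h2 := grid_sum i
  simp only at h0 h1
  funext t
  fin_cases t
  · exact h0
  · exact h1
  · show grid i 2 = a 2
    omega

/-- the ternary form of degree nine with coefficients `d` -/
noncomputable def nonic {R : Type*} [CommSemiring R] (d : Fin 55 → R) : MvPolynomial (Fin 3) R :=
  frm grid d

theorem nonic_hom {R : Type*} [CommSemiring R] (d : Fin 55 → R) :
    (nonic d).IsHomogeneous 9 := by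
  unfold nonic frm
  refine IsHomogeneous.sum _ _ _ fun i _ => ?_
  refine isHomogeneous_monomial _ ?_
  rw [Finsupp.degree_eq_sum, Fin.sum_univ_three]
  exact grid_sum i

/-- every form of degree nine is of this shape -/
theorem nonic_coeff {R : Type*} [CommSemiring R] (D : MvPolynomial (Fin 3) R)
    (hD : D.IsHomogeneous 9) : nonic (fun i => coeff (ex grid i) D) = D :=
  frm_coeff 9 grid grid_inj grid_surj D hD

/-- a form of degree nine is determined by its values at the grid -/
theorem nonic_ext {K : Type*} [Field K] [CharZero K] (D D' : MvPolynomial (Fin 3) K)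
    (hD : D.IsHomogeneous 9) (hD' : D'.IsHomogeneous 9)
    (h : ∀ i, eval (fun t => (grid i t : K)) D = eval (fun t => (grid i t : K)) D') : D = D' :=
  form_ext 9 grid (by norm_num) grid_inj grid_sum grid_surj D D' hD hD' h

theorem det_grid {K : Type*} [Field K] [CharZero K] : (vand grid K).det ≠ 0 :=
  det_vand 9 grid (by norm_num) grid_inj grid_sum grid_surj

theorem aeval_grid {A : Type*} [CommRing A] [Algebra ℚ A] (Ψ : MvPolynomial (Fin 55) ℚ)
    (d : Fin 55 → A) :
    aeval d (lin (vand grid ℚ) Ψ) =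
      aeval (fun i => eval (fun t => ((grid i t : ℕ) : A)) (nonic d)) Ψ := by
  rw [aeval_lin]
  have h : (fun i => ∑ j, algebraMap ℚ A (vand grid ℚ i j) * d j) =
      fun i => eval (fun t => ((grid i t : ℕ) : A)) (nonic d) := by
    funext i
    unfold nonic
    rw [eval_frm]
    refine Finset.sum_congr rfl fun j _ => ?_
    rw [mul_comm]
    unfold vand
    simp
  rw [h]

/-- **The general form of degree nine.**  Let `F` be a family of ternary forms of degree nine
with rational parameters whose values at the grid are algebraically independent.  Then, outside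
the zeros of a nonzero polynomial in the 55 coefficients, every form of degree nine over an
algebraically closed field is a member of the family, at a point where a given nonzero
polynomial does not vanish. -/
theorem general_nonic {τ : Type*} [Finite τ] (F : MvPolynomial (Fin 3) (MvPolynomial τ ℚ))
    (hF : F.IsHomogeneous 9)
    (hind : AlgebraicIndependent ℚ
      (fun i : Fin 55 => eval (fun t => ((grid i t : ℕ) : MvPolynomial τ ℚ)) F))
    (Φ : MvPolynomial τ ℚ) (hΦ : Φ ≠ 0) :
    ∃ Ψ : MvPolynomial (Fin 55) ℚ, Ψ ≠ 0 ∧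
      ∀ (Ω : Type*) [Field Ω] [IsAlgClosed Ω] [CharZero Ω] (d : Fin 55 → Ω), aeval d Ψ ≠ 0 →
        ∃ t : τ → Ω, aeval t Φ ≠ 0 ∧
          map (aeval t : MvPolynomial τ ℚ →ₐ[ℚ] Ω).toRingHom F = nonic d := by
  obtain ⟨Ψ, hΨ, H⟩ := exists_dominant _ hind Φ hΦ
  refine ⟨lin (vand grid ℚ) Ψ, lin_ne _ det_grid Ψ hΨ, ?_⟩
  intro Ω _ _ _ d hd
  rw [aeval_grid] at hd
  obtain ⟨t, ht, he⟩ := H Ω _ hd
  refine ⟨t, ht, ?_⟩
  refine nonic_ext _ _ (hF.map _) (nonic_hom d) fun i => ?_
  rw [← he i]
  rw [eval_map]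
  show eval₂ (aeval t : MvPolynomial τ ℚ →ₐ[ℚ] Ω).toRingHom (fun s => ((grid i s : ℕ) : Ω)) F =
    (aeval t : MvPolynomial τ ℚ →ₐ[ℚ] Ω).toRingHom
      (eval₂ (RingHom.id _) (fun s => ((grid i s : ℕ) : MvPolynomial τ ℚ)) F)
  rw [hom_eval₂, RingHom.comp_id]
  congr 1
  funext s
  show _ = (aeval t : MvPolynomial τ ℚ →ₐ[ℚ] Ω).toRingHom ((grid i s : ℕ) : MvPolynomial τ ℚ)
  rw [map_natCast]

end Pool.Agent.Work.Nonic
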