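import Mathlib
import Pool.Agent.Work.MP_b62148_ag.D9.Full9
import Pool.Agent.Work.MP_b62148_ag.Nonic.EvenJac
import Pool.Agent.Work.MP_b62148_ag.Nonic.Form9
import Pool.Agent.Work.MP_b62148_ag.D9odd.Absorb

/-!
Even class: over the general plane curve of degree nine there is a conic bundle of the class with
this curve as discriminant curve and with dense rational points over a finite extension.
-/

namespace Pool.Agent.Work.Nonic

open MvPolynomial Matrix D9 D9.OF D9.DS

/-- finitely many algebraic elements lie in a finite extension -/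
theorem exists_descend {k Ω τ : Type*} [Field k] [Field Ω] [Algebra k Ω] [Algebra.IsAlgebraic k Ω]
    [Finite τ] (t : τ → Ω) : ∃ L : IntermediateField k Ω, FiniteDimensional k L ∧
      ∃ t' : τ → L, ∀ v, algebraMap L Ω (t' v) = t v := by
  refine ⟨IntermediateField.adjoin k (Set.range t), ?_, fun v =>
    ⟨t v, IntermediateField.subset_adjoin k _ ⟨v, rfl⟩⟩, fun v => rfl⟩
  exact IntermediateField.finiteDimensional_adjoin fun x _ => Algebra.IsIntegral.isIntegral x

theorem InfJ_map {k l : Type*} [Field k] [Field l] (f : k →+* l)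
    {B : Fin 3 → Matrix (Fin 3) (Fin 3) k} (h : InfJ B) : InfJ (mB f B) := by
  obtain ⟨S, hS, h1, h2⟩ := h
  have hf : Function.Injective f := f.injective
  have hinj : Function.Injective fun v : Fin 3 → k => (f ∘ v : Fin 3 → l) := by
    intro v w hvw
    funext i
    exact hf (congrFun hvw i)
  refine ⟨(fun v : Fin 3 → k => f ∘ v) '' S, hS.image hinj.injOn, ?_, ?_⟩
  · rintro _ ⟨v, hv, rfl⟩ _ ⟨w, hw, rfl⟩ c hc
    have hw0 := (h2 w hw).1
    obtain ⟨j, hj⟩ := Function.ne_iff.1 hw0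
    have hj' : w j ≠ 0 := hj
    have h3 : ∀ i, f (v i) = c * f (w i) := fun i => congrFun hc i
    have h4 : v = (v j / w j) • w := by
      funext i
      apply hf
      rw [Pi.smul_apply, smul_eq_mul, map_mul, map_div₀, h3, h3 j]
      have h5 : f (w j) ≠ 0 := (map_ne_zero f).2 hj'
      field_simp
    rw [h1 v hv w hw _ h4]
  · rintro _ ⟨v, hv, rfl⟩
    obtain ⟨h3, h4⟩ := h2 v hv
    refine ⟨?_, ?_⟩
    · intro h0
      apply h3
      funext i
      exact hf ((congrFun h0 i).trans (map_zero f).symm)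
    · have h5 : rows (mB f B) (f ∘ v) = (rows B v).map f := by
        ext i j
        simp [rows, mB]
      rw [h5, ← RingHom.mapMatrix_apply, ← RingHom.map_det, h4, map_zero]

/-- the discriminant form of the generic parameters -/
theorem eval_disc_gen (i : Fin 55) :
    eval (fun t => ((grid i t : ℕ) : MvPolynomial Ix ℚ)) (disc (EJ.GB ℚ) (EJ.GN ℚ)) =
      EJ.FF (EJ.gpt ℚ i) := by
  rw [eval_disc]
  unfold EJ.FF EJ.gM EJ.gpt
  congr 2

theorem map_disc_gen {F : Type*} [Field F] [Algebra ℚ F] (B : Fin 3 → Matrix (Fin 3) (Fin 3) F)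
    (n : Fin 3 → Fin 3 × Fin 3 → Fin 3 × Fin 3 → F) :
    map (aeval (prm B n) : MvPolynomial Ix ℚ →ₐ[ℚ] F).toRingHom (disc (EJ.GB ℚ) (EJ.GN ℚ)) =
      disc B n := by
  rw [map_disc]
  congr 1
  · funext i
    ext r c
    simp [mB, EJ.GB, prm]
  · funext j s t
    simp [mN, EJ.GN, prm]

/-- every nonic outside a hypersurface is the discriminant curve of a general member of the even
class -/
theorem even_dominant (Φ : MvPolynomial Par ℚ) (hΦ : Φ ≠ 0) :
    ∃ Ψ : MvPolynomial (Fin 55) ℚ, Ψ ≠ 0 ∧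
      ∀ (Ω : Type*) [Field Ω] [IsAlgClosed Ω] [CharZero Ω] (d : Fin 55 → Ω), aeval d Ψ ≠ 0 →
        ∃ (B : Fin 3 → Matrix (Fin 3) (Fin 3) Ω)
          (n : Fin 3 → Fin 3 × Fin 3 → Fin 3 × Fin 3 → Ω),
          aeval (par B n) Φ ≠ 0 ∧ disc B n = nonic d := by
  obtain ⟨Ψ, hΨ, H⟩ := general_nonic (disc (EJ.GB ℚ) (EJ.GN ℚ)) (disc_hom _ _) (by
    have h := EJ.algebraicIndependent_FF
    have h1 : (fun i : Fin 55 => EJ.FF (EJ.gpt ℚ i)) = fun i : Fin 55 =>
        eval (fun t => ((grid i t : ℕ) : MvPolynomial Ix ℚ)) (disc (EJ.GB ℚ) (EJ.GN ℚ)) := by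
      funext i
      exact (eval_disc_gen i).symm
    rw [h1] at h
    exact h) Φ hΦ
  refine ⟨Ψ, hΨ, fun Ω _ _ _ d hd => ?_⟩
  obtain ⟨t, ht, he⟩ := H Ω d hd
  let B : Fin 3 → Matrix (Fin 3) (Fin 3) Ω := fun i => Matrix.of fun r c => t (Sum.inl (i, r, c))
  let n : Fin 3 → Fin 3 × Fin 3 → Fin 3 × Fin 3 → Ω := fun j s u => t (Sum.inr (j, s, u))
  have h1 : prm B n = t := by
    funext v
    rcases v with v | v <;> rfl
  refine ⟨B, n, ?_, ?_⟩
  · show aeval (prm B n) Φ ≠ 0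
    rw [h1]
    exact ht
  · rw [← map_disc_gen, h1, he]

theorem map_nonic {R S : Type*} [CommSemiring R] [CommSemiring S] (f : R →+* S) (d : Fin 55 → R) :
    map f (nonic d) = nonic fun i => f (d i) := by
  unfold nonic frm
  rw [map_sum]
  exact Finset.sum_congr rfl fun i _ => map_monomial _ _ _

universe u v

theorem aeval_par_ne {k Ω : Type*} [Field k] [CharZero k] [Field Ω] [CharZero Ω] (f : k →+* Ω)
    {B : Fin 3 → Matrix (Fin 3) (Fin 3) k} {n : Fin 3 → Fin 3 × Fin 3 → Fin 3 × Fin 3 → k}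
    {P : MvPolynomial Par ℚ} (h : aeval (par B n) P ≠ 0) : aeval (par (mB f B) (mN f n)) P ≠ 0 := by
  let _ : Algebra k Ω := f.toAlgebra
  have h1 := aeval_par (k := k) (Ω := Ω) B n P
  intro h0
  apply h
  have h2 : algebraMap k Ω (aeval (par B n) P) = 0 := h1.symm.trans h0
  exact (map_eq_zero _).1 h2

/-- **The general nonic, even class.** -/
theorem even_nonic : ∃ (Φ : MvPolynomial Par ℚ) (Ψ : MvPolynomial (Fin 55) ℚ), Φ ≠ 0 ∧ Ψ ≠ 0 ∧
    (∀ (k : Type u) (Ω : Type v) [Field k] [CharZero k] [Field Ω] [Algebra k Ω] [IsAlgClosed Ω]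
      (B : Fin 3 → Matrix (Fin 3) (Fin 3) k) (n : Fin 3 → Fin 3 × Fin 3 → Fin 3 × Fin 3 → k),
      aeval (par B n) Φ ≠ 0 →
      Geometry (mB (algebraMap k Ω) B) (mN (algebraMap k Ω) n) ∧
      (InfJ B → DensePts k Ω B n) ∧
      (Algebra.IsAlgebraic k Ω → ∃ L : IntermediateField k Ω, FiniteDimensional k L ∧
        InfJ (mB (algebraMap k L) B) ∧
        DensePts L Ω (mB (algebraMap k L) B) (mN (algebraMap k L) n))) ∧
    ∀ (k : Type u) (Ω : Type v) [Field k] [CharZero k] [Field Ω] [Algebra k Ω] [IsAlgClosed Ω]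
      [Algebra.IsAlgebraic k Ω] (d : Fin 55 → k), aeval d Ψ ≠ 0 →
      ∃ L : IntermediateField k Ω, FiniteDimensional k L ∧
        ∃ (B : Fin 3 → Matrix (Fin 3) (Fin 3) L) (n : Fin 3 → Fin 3 × Fin 3 → Fin 3 × Fin 3 → L),
          aeval (par B n) Φ ≠ 0 ∧ disc B n = nonic (fun i => algebraMap k L (d i)) ∧
          InfJ B ∧ DensePts L Ω B n := by
  obtain ⟨Φ₁, h₁, H₁⟩ := even_full.{u, v}
  obtain ⟨Φ₂, h₂, H₂⟩ := even_full.{v, v}
  obtain ⟨Ψ, hΨ, H⟩ := even_dominant.{v} (Φ₁ * Φ₂) (mul_ne_zero h₁ h₂)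
  refine ⟨Φ₁ * Φ₂, Ψ, mul_ne_zero h₁ h₂, hΨ, ?_, ?_⟩
  · intro k Ω _ _ _ _ _ B n hBn
    rw [map_mul] at hBn
    exact H₁ k Ω B n (left_ne_zero_of_mul hBn)
  · intro k Ω _ _ _ _ _ _ d hd
    have : CharZero Ω := charZero_of_injective_algebraMap (algebraMap k Ω).injective
    obtain ⟨B, n, hBn, hdisc⟩ := H Ω (fun i => algebraMap k Ω (d i)) (by
      have h1 : aeval (fun i => algebraMap k Ω (d i)) Ψ = algebraMap k Ω (aeval d Ψ) := by
        rw [aeval_def, aeval_def, ← MvPolynomial.coe_eval₂Hom, ← MvPolynomial.coe_eval₂Hom,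
          ← RingHom.comp_apply]
        congr 1
        apply MvPolynomial.ringHom_ext
        · intro r
          simp
        · intro i
          simp
      rw [h1]
      exact fun h0 => hd ((map_eq_zero _).1 h0))
    obtain ⟨L₀, hfd₀, t, ht⟩ := exists_descend (k := k) (par B n)
    let B₀ : Fin 3 → Matrix (Fin 3) (Fin 3) L₀ := fun i => Matrix.of fun r c =>
      t (Sum.inl (i, r, c))
    let n₀ : Fin 3 → Fin 3 × Fin 3 → Fin 3 × Fin 3 → L₀ := fun j s u => t (Sum.inr (j, s, u))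
    have hB₀ : mB (algebraMap L₀ Ω) B₀ = B := by
      funext i
      ext r c
      exact ht (Sum.inl (i, r, c))
    have hn₀ : mN (algebraMap L₀ Ω) n₀ = n := by
      funext j s u
      exact ht (Sum.inr (j, s, u))
    have h0 : aeval (par B₀ n₀) (Φ₁ * Φ₂) ≠ 0 := by
      intro h0
      apply hBn
      rw [← hB₀, ← hn₀, aeval_par, h0, map_zero]
    have h0' : aeval (par B₀ n₀) Φ₂ ≠ 0 := by
      rw [map_mul] at h0
      exact right_ne_zero_of_mul h0
    obtain ⟨L₁, hfd₁, hJ, -⟩ := (H₂ L₀ Ω B₀ n₀ h0').2.2 inferInstance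
    let L : IntermediateField k Ω := L₁.restrictScalars k
    have hfd : FiniteDimensional k L := by
      have : Module.Finite k L₁ := Module.Finite.trans L₀ L₁
      exact this
    let f : L₁ →+* L := RingHom.id L₁
    let g : L₀ →+* L := f.comp (algebraMap L₀ L₁)
    have hg : ∀ a, algebraMap L Ω (g a) = algebraMap L₀ Ω a := fun a => rfl
    refine ⟨L, hfd, mB g B₀, mN g n₀, aeval_par_ne g h0, ?_, ?_, ?_⟩
    · apply MvPolynomial.map_injective (algebraMap L Ω) (algebraMap L Ω).injective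
      rw [map_disc, map_nonic]
      have e1 : mB (algebraMap L Ω) (mB g B₀) = B := hB₀
      have e2 : mN (algebraMap L Ω) (mN g n₀) = n := hn₀
      rw [e1, e2, hdisc]
      rfl
    · exact InfJ_map f hJ
    · refine (H₂ L Ω (mB g B₀) (mN g n₀) (aeval_par_ne g h0')).2.1 ?_
      exact InfJ_map f hJ

end Pool.Agent.Work.Nonic
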