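import Mathlib
import Pool.Agent.Work.MP_b62148_ag.Nonic.Dom
import Pool.Agent.Work.MP_b62148_ag.Nonic.DetDer

/-!
Algebraic independence of determinants from a certificate modulo a prime number.
-/

namespace Pool.Agent.Work.Nonic

open MvPolynomial Matrix

section red

variable {τ : Type*} {m : ℕ} {n : Type*} [Fintype n] [DecidableEq n]

theorem eval_map' {S S' : Type*} [CommRing S] [CommRing S'] (φ : S →+* S') (a : τ → S)
    (f : MvPolynomial τ S) : eval (fun t => φ (a t)) (map φ f) = φ (eval a f) := by
  rw [eval_map]
  show _ = φ (eval₂ (RingHom.id S) a f)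
  rw [hom_eval₂, RingHom.comp_id]

omit [Fintype n] [DecidableEq n] in
theorem pderiv_map_matrix {S S' : Type*} [CommRing S] [CommRing S'] (φ : S →+* S')
    (M : Matrix n n (MvPolynomial τ S)) (a : τ → S) (l : τ) :
    ((M.map (map φ)).map fun f => eval (fun t => φ (a t)) (pderiv l f)) =
      (M.map fun f => eval a (pderiv l f)).map φ := by
  ext u v
  simp only [Matrix.map_apply]
  rw [pderiv_map, eval_map']

/-- **Certificate.** -/
theorem indep_of_cert (M : Fin m → Matrix n n (MvPolynomial τ ℤ)) (a : τ → ℤ) (j : Fin m → τ)
    {F : Type*} [Field F] (I : Fin m → Matrix n n F) (B : Matrix (Fin m) (Fin m) F)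
    (hI : ∀ i, ((M i).map (eval a)).map (Int.cast : ℤ → F) * I i = 1)
    (hB : (Matrix.of fun i l => trace (I i *
      ((M i).map fun f => eval a (pderiv (j l) f)).map (Int.cast : ℤ → F))) * B = 1) :
    AlgebraicIndependent ℚ fun i => map (Int.castRingHom ℚ) (M i).det := by
  refine algebraicIndependent_of_jac _ j (fun t => (a t : ℚ)) ?_
  -- the Jacobian matrix over the integers
  set J : Matrix (Fin m) (Fin m) ℤ := Matrix.of fun i l => eval a (pderiv (j l) (M i).det) with hJ
  have h1 : (Matrix.of fun i l => eval (fun t => (a t : ℚ))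
      (pderiv (j l) (map (Int.castRingHom ℚ) (M i).det))) = J.map (Int.castRingHom ℚ) := by
    ext i l
    rw [Matrix.of_apply, pderiv_map]
    exact eval_map' (Int.castRingHom ℚ) a _
  rw [h1, ← RingHom.mapMatrix_apply, ← RingHom.map_det]
  intro h0
  have h2 : J.det = 0 := by
    have : (Int.castRingHom ℚ) J.det = ((J.det : ℤ) : ℚ) := rfl
    rw [this] at h0
    exact_mod_cast h0
  -- reduction
  set φ : ℤ →+* F := Int.castRingHom F with hφ
  have h3 : ∀ i l, φ (J i l) = (((M i).map (eval a)).map φ).det *
      trace (I i * ((M i).map fun f => eval a (pderiv (j l) f)).map φ) := by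
    intro i l
    have e1 : ((M i).map (map φ)).map (eval fun t => φ (a t)) = ((M i).map (eval a)).map φ := by
      ext u v
      simp only [Matrix.map_apply]
      rw [eval_map']
    have h4 := eval_pderiv_det ((M i).map (map φ)) (fun t => φ (a t)) (j l) (I i) (by
      rw [e1]
      exact hI i)
    rw [pderiv_map_matrix, e1] at h4
    rw [← h4]
    show φ (eval a (pderiv (j l) (M i).det)) = _
    have e2 : ((M i).map (map φ)).det = map φ (M i).det := by
      rw [RingHom.map_det]
      rfl
    rw [e2, pderiv_map, eval_map']
  have h5 : J.map φ = Matrix.diagonal (fun i => (((M i).map (eval a)).map φ).det) *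
      (Matrix.of fun i l => trace (I i *
        ((M i).map fun f => eval a (pderiv (j l) f)).map φ)) := by
    ext i l
    rw [Matrix.diagonal_mul, Matrix.of_apply]
    exact h3 i l
  have h6 := congrArg Matrix.det h5
  rw [← RingHom.mapMatrix_apply, ← RingHom.map_det, h2, map_zero, Matrix.det_mul,
    Matrix.det_diagonal] at h6
  have h7 : ∏ i, (((M i).map (eval a)).map φ).det ≠ 0 := by
    refine Finset.prod_ne_zero_iff.mpr fun i _ => ?_
    intro h
    have := congrArg Matrix.det (hI i)
    rw [Matrix.det_mul, Matrix.det_one] at this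
    have h' : (((M i).map (eval a)).map (Int.cast : ℤ → F)).det = 0 := h
    rw [h', zero_mul] at this
    exact zero_ne_one this
  have h8 : (Matrix.of fun i l => trace (I i *
      ((M i).map fun f => eval a (pderiv (j l) f)).map φ)).det ≠ 0 := by
    intro h
    have := congrArg Matrix.det hB
    rw [Matrix.det_mul, Matrix.det_one] at this
    have h' : (Matrix.of fun i l => trace (I i *
      ((M i).map fun f => eval a (pderiv (j l) f)).map (Int.cast : ℤ → F))).det = 0 := h
    rw [h', zero_mul] at this
    exact zero_ne_one this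
  exact mul_ne_zero h7 h8 h6.symm

end red

end Pool.Agent.Work.Nonic
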