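import Mathlib

/-!
A small checker for matrix identities modulo a prime, with matrices packed into natural numbers
(one byte per entry), for evaluation in the kernel.
-/

namespace Pool.Agent.Work.Nonic.Cert

open Matrix

/-- the byte `k` of `N` -/
def dig (N k : ℕ) : ℕ := Nat.mod (Nat.shiftRight N (Nat.mul 8 k)) 256

/-- `∑ k < n, f k * g k` -/
def dotN (f g : ℕ → ℕ) : ℕ → ℕ :=
  Nat.rec 0 fun k r => Nat.add r (Nat.mul (f k) (g k))

/-- `∀ k < n, f k` -/
def allN (f : ℕ → Bool) : ℕ → Bool :=
  Nat.rec true fun k r => cond (f k) r false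

/-- the entries of the identity matrix -/
def del (a b : ℕ) : ℕ := cond (Nat.beq a b) 1 0

/-- the matrices `M`, `I` are inverse to each other modulo `p` -/
def mulChk (n p M I : ℕ) : Bool :=
  allN (fun a => allN (fun b => Nat.beq (Nat.mod (dotN (fun k => dig M (Nat.add (Nat.mul n a) k))
    (fun k => dig I (Nat.add (Nat.mul n k) b)) n) p) (del a b)) n) n

theorem allN_sound (f : ℕ → Bool) (n : ℕ) (h : allN f n = true) : ∀ k < n, f k = true := by
  induction n with
  | zero => intro k hk; omega
  | succ n ih =>
    have h1 : cond (f n) (allN f n) false = true := h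
    intro k hk
    cases hf : f n with
    | false => rw [hf] at h1; simp at h1
    | true =>
      rw [hf] at h1
      rcases Nat.lt_succ_iff_lt_or_eq.mp hk with h2 | h2
      · exact ih h1 k h2
      · rw [h2, hf]

theorem dotN_eq (f g : ℕ → ℕ) (n : ℕ) : dotN f g n = ∑ k : Fin n, f k * g k := by
  rw [Fin.sum_univ_eq_sum_range fun k => f k * g k]
  induction n with
  | zero => rfl
  | succ n ih =>
    rw [Finset.sum_range_succ, ← ih]
    rfl

/-- the packed matrix -/
def matZ (p n N : ℕ) : Matrix (Fin n) (Fin n) (ZMod p) :=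
  Matrix.of fun a b => ((dig N (n * a + b) : ℕ) : ZMod p)

theorem cast_of_mod {p a b : ℕ} (h : Nat.beq (Nat.mod a p) b = true) : (a : ZMod p) = b := by
  have h1 : a % p = b := Nat.eq_of_beq_eq_true h
  rw [← h1, ZMod.natCast_mod]

theorem mulChk_sound {n p M I : ℕ} (h : mulChk n p M I = true) :
    matZ p n M * matZ p n I = 1 := by
  ext a b
  have h1 := cast_of_mod (allN_sound _ _ (allN_sound _ _ h a a.2) b b.2)
  rw [dotN_eq] at h1
  rw [Matrix.mul_apply]
  simp only [matZ, Matrix.of_apply]
  push_cast at h1
  refine Eq.trans ?_ (h1.trans ?_)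
  · rfl
  · rw [Matrix.one_apply]
    unfold del
    split_ifs with h2
    · subst h2
      rw [Nat.beq_refl]
      simp
    · have h3 : Nat.beq (a : ℕ) b = false := by
        by_contra h4
        rw [Bool.not_eq_false] at h4
        exact h2 (Fin.ext (Nat.eq_of_beq_eq_true h4))
      rw [h3]
      simp

end Pool.Agent.Work.Nonic.Cert
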