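import Mathlib

/-!
Linear changes of coordinates of the plane.
-/

namespace Pool.Agent.Work.Nonic

open MvPolynomial Matrix

/-- linear change of coordinates -/
noncomputable def subst {R : Type*} [CommRing R] (g : Matrix (Fin 3) (Fin 3) R) :
    MvPolynomial (Fin 3) R →ₐ[R] MvPolynomial (Fin 3) R :=
  aeval fun i => ∑ j, C (g i j) * X j

theorem eval_subst {R : Type*} [CommRing R] (g : Matrix (Fin 3) (Fin 3) R) (x : Fin 3 → R)
    (D : MvPolynomial (Fin 3) R) : eval x (subst g D) = eval (g *ᵥ x) D := by
  unfold subst
  induction D using MvPolynomial.induction_on with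
  | C a => simp
  | add p q hp hq => rw [map_add, map_add, map_add, hp, hq]
  | mul_X p i hp =>
    rw [map_mul, map_mul, map_mul, hp, aeval_X, eval_X]
    simp [mulVec, dotProduct]

theorem map_subst {R S : Type*} [CommRing R] [CommRing S] (f : R →+* S)
    (g : Matrix (Fin 3) (Fin 3) R) (D : MvPolynomial (Fin 3) R) :
    map f (subst g D) = subst (g.map f) (map f D) := by
  unfold subst
  induction D using MvPolynomial.induction_on with
  | C a => simp
  | add p q hp hq => rw [map_add, map_add, map_add, map_add, hp, hq]
  | mul_X p i hp =>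
    rw [map_mul, map_mul, map_mul, map_mul, hp, map_X, aeval_X, aeval_X]
    simp

end Pool.Agent.Work.Nonic
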