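import Mathlib
import Pool.Agent.Work.MP_b62148_ag.D9odd.FullOdd
import Pool.Agent.Work.MP_b62148_ag.D9odd.N1Odd
import Pool.Agent.Work.MP_b62148_ag.Nonic.Main
import Pool.Agent.Work.MP_b62148_ag.Nonic.Subst

/-!
Odd class: over the general plane curve of degree nine there is, in suitable coordinates over a
finite extension, a conic bundle of the class with this curve as discriminant curve, and all of them
have dense rational points.
-/

namespace Pool.Agent.Work.Nonic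

open MvPolynomial Matrix D9odd

theorem odd_dominant (Φ : MvPolynomial (Fin 3 × Fin 6 × Fin 6) ℚ) (hΦ : Φ ≠ 0) :
    ∃ Ψ : MvPolynomial (Fin 55) ℚ, Ψ ≠ 0 ∧
      ∀ (Ω : Type*) [Field Ω] [IsAlgClosed Ω] [CharZero Ω] (d : Fin 55 → Ω), aeval d Ψ ≠ 0 →
        ∃ (T0 T1 T2 : Matrix (Fin 6) (Fin 6) Ω) (g : Matrix (Fin 3) (Fin 3) Ω), g.det ≠ 0 ∧
          aeval (par6 T0 T1 T2) Φ ≠ 0 ∧ subst g (disc7 T0 T1 T2) = nonic d := by
  obtain ⟨Ψ, hΨ, H⟩ := N1.general_disc7 Φ hΦ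
  refine ⟨Ψ, hΨ, fun Ω _ _ _ d hd => ?_⟩
  obtain ⟨T0, T1, T2, g, h1, h2, h3⟩ := H Ω d hd
  exact ⟨T0, T1, T2, g, h2, h1, h3⟩

universe u v

theorem aeval_par6 {k Ω : Type*} [Field k] [CharZero k] [Field Ω] [CharZero Ω] (f : k →+* Ω)
    (T0 T1 T2 : Matrix (Fin 6) (Fin 6) k) (P : MvPolynomial (Fin 3 × Fin 6 × Fin 6) ℚ) :
    aeval (par6 (T0.map f) (T1.map f) (T2.map f)) P = f (aeval (par6 T0 T1 T2) P) := by
  rw [aeval_def, aeval_def, eval₂_comp_left f]
  congr 1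
  · exact Subsingleton.elim _ _
  · funext s
    obtain ⟨i, r, c⟩ := s
    fin_cases i <;> rfl

/-- **The general nonic, odd class.** -/
theorem odd_nonic : ∃ (Φ : MvPolynomial (Fin 3 × Fin 6 × Fin 6) ℚ) (Ψ : MvPolynomial (Fin 55) ℚ),
    Φ ≠ 0 ∧ Ψ ≠ 0 ∧
    (∀ (k : Type u) (Ω : Type v) [Field k] [CharZero k] [Field Ω] [IsAlgClosed Ω] [Algebra k Ω]
      (T0 T1 T2 : Matrix (Fin 6) (Fin 6) k), aeval (par6 T0 T1 T2) Φ ≠ 0 →
      (disc7 T0 T1 T2 ≠ 0 ∧ ∀ x : Fin 3 → Ω, x ≠ 0 →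
        ∃ j, aeval x (pderiv j (disc7 T0 T1 T2)) ≠ 0) ∧
      (IsoPlane (sub5 T0) → InfE T0 T1 T2 →
        ∀ Q : Matrix (Fin 3) (Fin 3) (MvPolynomial (Fin 3) k), (Q + Qᵀ).det ≠ 0 →
          HasIso T0 T1 T2 Q → DensePts k Ω Q) ∧
      (Algebra.IsAlgebraic k Ω → ∃ L : IntermediateField k Ω,
        FiniteDimensional k L ∧
        IsoPlane (sub5 (T0.map (algebraMap k L))) ∧
        InfE (T0.map (algebraMap k L)) (T1.map (algebraMap k L)) (T2.map (algebraMap k L)) ∧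
        (∃ Q : Matrix (Fin 3) (Fin 3) (MvPolynomial (Fin 3) L), (Q + Qᵀ).det ≠ 0 ∧
          HasIso (T0.map (algebraMap k L)) (T1.map (algebraMap k L)) (T2.map (algebraMap k L)) Q) ∧
        ∀ Q : Matrix (Fin 3) (Fin 3) (MvPolynomial (Fin 3) L), (Q + Qᵀ).det ≠ 0 →
          HasIso (T0.map (algebraMap k L)) (T1.map (algebraMap k L)) (T2.map (algebraMap k L)) Q →
            DensePts L Ω Q)) ∧
    ∀ (k : Type u) (Ω : Type v) [Field k] [CharZero k] [Field Ω] [Algebra k Ω] [IsAlgClosed Ω]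
      [Algebra.IsAlgebraic k Ω] (d : Fin 55 → k), aeval d Ψ ≠ 0 →
      ∃ L : IntermediateField k Ω, FiniteDimensional k L ∧
        ∃ (T0 T1 T2 : Matrix (Fin 6) (Fin 6) L) (g : Matrix (Fin 3) (Fin 3) L), g.det ≠ 0 ∧
          aeval (par6 T0 T1 T2) Φ ≠ 0 ∧
          subst g (disc7 T0 T1 T2) = nonic (fun i => algebraMap k L (d i)) ∧
          IsoPlane (sub5 T0) ∧ InfE T0 T1 T2 ∧
          (∃ Q : Matrix (Fin 3) (Fin 3) (MvPolynomial (Fin 3) L), (Q + Qᵀ).det ≠ 0 ∧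
            HasIso T0 T1 T2 Q) ∧
          ∀ Q : Matrix (Fin 3) (Fin 3) (MvPolynomial (Fin 3) L), (Q + Qᵀ).det ≠ 0 →
            HasIso T0 T1 T2 Q → DensePts L Ω Q := by
  obtain ⟨Φ₁, h₁, H₁⟩ := odd_full.{u, v}
  obtain ⟨Φ₂, h₂, H₂⟩ := odd_full.{v, v}
  obtain ⟨Ψ, hΨ, H⟩ := odd_dominant.{v} (Φ₁ * Φ₂) (mul_ne_zero h₁ h₂)
  refine ⟨Φ₁ * Φ₂, Ψ, mul_ne_zero h₁ h₂, hΨ, ?_, ?_⟩
  · intro k Ω _ _ _ _ _ T0 T1 T2 hT
    rw [map_mul] at hT
    exact H₁ k Ω T0 T1 T2 (left_ne_zero_of_mul hT)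
  · intro k Ω _ _ _ _ _ _ d hd
    have : CharZero Ω := charZero_of_injective_algebraMap (algebraMap k Ω).injective
    obtain ⟨T0, T1, T2, g, hg, hT, hdisc⟩ := H Ω (fun i => algebraMap k Ω (d i)) (by
      have h1 : aeval (fun i => algebraMap k Ω (d i)) Ψ = algebraMap k Ω (aeval d Ψ) := by
        rw [aeval_def, aeval_def, ← MvPolynomial.coe_eval₂Hom, ← MvPolynomial.coe_eval₂Hom,
          ← RingHom.comp_apply]
        congr 1
        apply MvPolynomial.ringHom_ext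
        · intro r
          simp
        · intro i
          simp
      rw [h1]
      exact fun h0 => hd ((map_eq_zero _).1 h0))
    obtain ⟨L₀, hfd₀, t, ht⟩ := exists_descend (k := k)
      (Sum.elim (par6 T0 T1 T2) fun s : Fin 3 × Fin 3 => g s.1 s.2)
    let S0 : Matrix (Fin 6) (Fin 6) L₀ := Matrix.of fun a b => t (Sum.inl (0, a, b))
    let S1 : Matrix (Fin 6) (Fin 6) L₀ := Matrix.of fun a b => t (Sum.inl (1, a, b))
    let S2 : Matrix (Fin 6) (Fin 6) L₀ := Matrix.of fun a b => t (Sum.inl (2, a, b))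
    let g₀ : Matrix (Fin 3) (Fin 3) L₀ := Matrix.of fun a b => t (Sum.inr (a, b))
    have e0 : S0.map (algebraMap L₀ Ω) = T0 := by
      ext a b
      exact ht (Sum.inl (0, a, b))
    have e1 : S1.map (algebraMap L₀ Ω) = T1 := by
      ext a b
      exact ht (Sum.inl (1, a, b))
    have e2 : S2.map (algebraMap L₀ Ω) = T2 := by
      ext a b
      exact ht (Sum.inl (2, a, b))
    have eg : g₀.map (algebraMap L₀ Ω) = g := by
      ext a b
      exact ht (Sum.inr (a, b))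
    have h0 : aeval (par6 S0 S1 S2) (Φ₁ * Φ₂) ≠ 0 := by
      intro h0
      apply hT
      rw [← e0, ← e1, ← e2, aeval_par6, h0, map_zero]
    have h0' : aeval (par6 S0 S1 S2) Φ₂ ≠ 0 := by
      rw [map_mul] at h0
      exact right_ne_zero_of_mul h0
    obtain ⟨L₁, hfd₁, c1, c2, c3, c4⟩ := (H₂ L₀ Ω S0 S1 S2 h0').2.2 inferInstance
    let L : IntermediateField k Ω := L₁.restrictScalars k
    have hfd : FiniteDimensional k L := by
      have : Module.Finite k L₁ := Module.Finite.trans L₀ L₁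
      exact this
    let f : L₀ →+* L := (RingHom.id L₁ : L₁ →+* L).comp (algebraMap L₀ L₁)
    refine ⟨L, hfd, S0.map f, S1.map f, S2.map f, g₀.map f, ?_, ?_, ?_, c1, c2, c3, c4⟩
    · intro h
      apply hg
      have h1 : (g₀.map f).map (algebraMap L Ω) = g := eg
      rw [← h1, ← RingHom.mapMatrix_apply, ← RingHom.map_det, h, map_zero]
    · rw [aeval_par6]
      exact fun h => h0 ((map_eq_zero _).1 h)
    · apply MvPolynomial.map_injective (algebraMap L Ω) (algebraMap L Ω).injective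
      rw [map_subst, map_disc7, map_nonic]
      have e0' : (S0.map f).map (algebraMap L Ω) = T0 := e0
      have e1' : (S1.map f).map (algebraMap L Ω) = T1 := e1
      have e2' : (S2.map f).map (algebraMap L Ω) = T2 := e2
      have eg' : (g₀.map f).map (algebraMap L Ω) = g := eg
      rw [e0', e1', e2', eg', hdisc]
      rfl

end Pool.Agent.Work.Nonic
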