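import Mathlib

/-!
Digits of natural numbers: products of matrices with packed rows.
-/

namespace Pool.Agent.Work.Nonic

open Finset

/-- the digit of `N` in base `W` at the place `c` -/
def dig (W N c : ℕ) : ℕ := N / W ^ c % W

theorem sum_dig (W N n : ℕ) :
    N = ∑ c ∈ range n, dig W N c * W ^ c + N / W ^ n * W ^ n := by
  induction n with
  | zero => simp
  | succ n ih =>
    rw [sum_range_succ]
    have h1 : N / W ^ n = dig W N n + W * (N / W ^ (n + 1)) := by
      unfold dig
      rw [pow_succ, ← Nat.div_div_eq_div_mul]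
      exact (Nat.mod_add_div _ _).symm
    have h2 : N / W ^ n * W ^ n = dig W N n * W ^ n + N / W ^ (n + 1) * W ^ (n + 1) := by
      conv_lhs => rw [h1]
      ring
    rw [add_assoc, ← h2]
    exact ih

theorem sum_dig_of_lt (W N n : ℕ) (h : N < W ^ n) : ∑ c ∈ range n, dig W N c * W ^ c = N := by
  have h1 := sum_dig W N n
  rw [Nat.div_eq_of_lt h, zero_mul, add_zero] at h1
  exact h1.symm

theorem sum_lt (W n : ℕ) (d : ℕ → ℕ) (hd : ∀ c < n, d c < W) :
    ∑ c ∈ range n, d c * W ^ c < W ^ n := by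
  induction n with
  | zero => simp
  | succ n ih =>
    rw [sum_range_succ]
    have h1 := ih fun c hc => hd c (by omega)
    have h2 := hd n (by omega)
    calc ∑ c ∈ range n, d c * W ^ c + d n * W ^ n < W ^ n + d n * W ^ n := by omega
      _ = (d n + 1) * W ^ n := by ring
      _ ≤ W * W ^ n := Nat.mul_le_mul_right _ h2
      _ = W ^ (n + 1) := by ring

theorem dig_sum (W n : ℕ) (d : ℕ → ℕ) (hd : ∀ c < n, d c < W) (c : ℕ) (hc : c < n) :
    dig W (∑ c' ∈ range n, d c' * W ^ c') c = d c := by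
  have hW : 0 < W := lt_of_le_of_lt (Nat.zero_le _) (hd c hc)
  unfold dig
  have h1 : ∑ c' ∈ range n, d c' * W ^ c' = ∑ c' ∈ range c, d c' * W ^ c' +
      W ^ c * (d c + W * ∑ j ∈ range (n - c - 1), d (c + 1 + j) * W ^ j) := by
    have e : n = (c + 1) + (n - c - 1) := by omega
    conv_lhs => rw [e]
    rw [sum_range_add, sum_range_succ]
    have h2 : ∑ j ∈ range (n - c - 1), d (c + 1 + j) * W ^ (c + 1 + j) =
        W ^ c * (W * ∑ j ∈ range (n - c - 1), d (c + 1 + j) * W ^ j) := by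
      rw [mul_sum, mul_sum]
      refine sum_congr rfl fun j _ => ?_
      rw [pow_add, pow_succ]
      ring
    rw [h2]
    ring
  rw [h1, Nat.add_mul_div_left _ _ (pow_pos hW c),
    Nat.div_eq_of_lt (sum_lt W c d fun c' hc' => hd c' (by omega)), zero_add,
    Nat.add_mul_mod_self_left, Nat.mod_eq_of_lt (hd c hc)]

/-- **The product of a matrix and a packed matrix.** -/
theorem dig_mul (W m n : ℕ) (K : ℕ → ℕ) (P : ℕ → ℕ) (hP : ∀ l < m, P l < W ^ n)
    (h : ∀ c < n, ∑ l ∈ range m, K l * dig W (P l) c < W) (c : ℕ) (hc : c < n) :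
    dig W (∑ l ∈ range m, K l * P l) c = ∑ l ∈ range m, K l * dig W (P l) c := by
  have h1 : ∑ l ∈ range m, K l * P l =
      ∑ c' ∈ range n, (∑ l ∈ range m, K l * dig W (P l) c') * W ^ c' := by
    simp only [sum_mul]
    rw [sum_comm]
    refine sum_congr rfl fun l hl => ?_
    conv_lhs => rw [← sum_dig_of_lt W (P l) n (hP l (mem_range.mp hl)), mul_sum]
    refine sum_congr rfl fun c' _ => ?_
    ring
  rw [h1]
  exact dig_sum W n _ h c hc

/-- sums, for the kernel -/
def sumTo (f : ℕ → ℕ) : ℕ → ℕ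
  | 0 => 0
  | n + 1 => sumTo f n + f n

theorem sumTo_eq (f : ℕ → ℕ) (n : ℕ) : sumTo f n = ∑ i ∈ range n, f i := by
  induction n with
  | zero => rfl
  | succ n ih => rw [sumTo, sum_range_succ, ih]

/-- **Certificate.**  `K` and the packed matrix `P` are inverse modulo `p`. -/
theorem mul_cert (p W n : ℕ) (hp : 0 < p) (K : Fin n → Fin n → ℕ) (P : ℕ → ℕ)
    (hP : ∀ l < n, P l < W ^ n) (hb : ∀ l < n, ∀ c < n, dig W (P l) c < p)
    (hW : n * (p * p) < W) (K' : ℕ → ℕ → ℕ) (hK' : ∀ i l : Fin n, K' i l = K i l)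
    (hc : ∀ i < n, ∀ c < n, dig W (sumTo (fun l => K' i l % p * P l) n) c % p =
      if i = c then 1 % p else 0) :
    (Matrix.of fun i l : Fin n => ((K i l : ℕ) : ZMod p)) *
      (Matrix.of fun l c : Fin n => ((dig W (P l) c : ℕ) : ZMod p)) = 1 := by
  ext i c
  have h1 := hc i i.2 c c.2
  rw [sumTo_eq, dig_mul W n n _ P hP ?_ c c.2] at h1
  · have h2 := congrArg (Nat.cast : ℕ → ZMod p) h1
    rw [ZMod.natCast_mod, Nat.cast_sum, ← Fin.sum_univ_eq_sum_range
      (fun l => ((K' i l % p * dig W (P l) c : ℕ) : ZMod p))] at h2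
    rw [Matrix.mul_apply, Matrix.one_apply]
    have h3 : ∑ l : Fin n, Matrix.of (fun i l : Fin n => ((K i l : ℕ) : ZMod p)) i l *
        Matrix.of (fun l c : Fin n => ((dig W (P l) c : ℕ) : ZMod p)) l c =
        ∑ l : Fin n, ((K' i l % p * dig W (P l) c : ℕ) : ZMod p) := by
      refine sum_congr rfl fun l _ => ?_
      rw [Matrix.of_apply, Matrix.of_apply, Nat.cast_mul, ZMod.natCast_mod, hK']
    rw [h3, h2]
    by_cases hic : i = c
    · rw [if_pos hic, if_pos (congrArg Fin.val hic), ZMod.natCast_mod, Nat.cast_one]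
    · rw [if_neg hic, if_neg (fun h => hic (Fin.ext h)), Nat.cast_zero]
  · intro c' hc'
    refine lt_of_le_of_lt (sum_le_card_nsmul (range n) _ (p * p) fun l hl => ?_) ?_
    · exact Nat.mul_le_mul (Nat.mod_lt _ hp).le (hb l (mem_range.mp hl) c' hc').le
    · rw [card_range, smul_eq_mul]
      exact hW

end Pool.Agent.Work.Nonic
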